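import Pool.Agent.Lib.MP_cb2e5b_nt.ManyGood

/-!
Under the abc conjecture large good integers have no representation at all.
-/

set_option autoImplicit false

open Finset

namespace PerfectPowerDiff

/-- `n = x ^ k - y ^ l` with `x, y ≥ 1`, `k, l ≥ 2` -/
def Repr (n : ℕ) : Prop :=
  ∃ x y k l : ℕ, 0 < x ∧ 0 < y ∧ 2 ≤ k ∧ 2 ≤ l ∧ n + y ^ l = x ^ k

/-- the abc inequality with exponent `κ` and constant `K` -/
def ABC (κ K : ℝ) : Prop :=
  ∀ a b c : ℕ, 0 < a → 0 < b → Nat.Coprime a b → a + b = c →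
    (c : ℝ) ≤ K * ((∏ p ∈ (a * b * c).primeFactors, p : ℕ) : ℝ) ^ κ

theorem exps_of_good {k l : ℕ} (hk : 2 ≤ k) (hl : 2 ≤ l) (hco : Nat.Coprime k l)
    (h23 : ¬ (2 ∣ k ∧ 3 ∣ l)) (h32 : ¬ (3 ∣ k ∧ 2 ∣ l)) : 10 * (k + l) ≤ 7 * (k * l) := by
  rcases Nat.lt_or_ge k 5 with hk5 | hk5
  · have hcases : k = 2 ∨ k = 3 ∨ k = 4 := by omega
    rcases hcases with rfl | rfl | rfl
    · have h1 : ¬ 2 ∣ l := by
        intro h
        have := Nat.dvd_gcd (dvd_refl 2) h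
        rw [hco] at this
        omega
      have h2 : ¬ 3 ∣ l := fun h => h23 ⟨dvd_refl 2, h⟩
      omega
    · have h1 : ¬ 3 ∣ l := by
        intro h
        have := Nat.dvd_gcd (dvd_refl 3) h
        rw [hco] at this
        omega
      have h2 : ¬ 2 ∣ l := fun h => h32 ⟨dvd_refl 3, h⟩
      omega
    · have h1 : ¬ 2 ∣ l := by
        intro h
        have := Nat.dvd_gcd (show 2 ∣ 4 by norm_num) h
        rw [hco] at this
        omega
      omega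
  · obtain ⟨k', rfl⟩ := Nat.exists_eq_add_of_le hk5
    obtain ⟨l', rfl⟩ := Nat.exists_eq_add_of_le hl
    nlinarith [Nat.zero_le (k' * l')]

theorem prod_small {x y k l X : ℕ} (hk : 2 ≤ k) (hl : 2 ≤ l) (hX : x ^ k = X) (hY : y ^ l ≤ X)
    (hX0 : 0 < X) (h : 10 * (k + l) ≤ 7 * (k * l)) : (x * y) ^ 10 ≤ X ^ 7 := by
  have h1 : ((x * y) ^ 10) ^ (k * l) ≤ (X ^ 7) ^ (k * l) := by
    calc ((x * y) ^ 10) ^ (k * l) = ((x ^ k) ^ l * (y ^ l) ^ k) ^ 10 := by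
          rw [← pow_mul, mul_pow, ← pow_mul x, ← pow_mul y, mul_pow, ← pow_mul, ← pow_mul]
          congr 2 <;> ring
      _ ≤ (X ^ l * X ^ k) ^ 10 := by
          apply Nat.pow_le_pow_left
          rw [hX]
          exact Nat.mul_le_mul_left _ (Nat.pow_le_pow_left hY k)
      _ = X ^ (10 * (k + l)) := by
          rw [← pow_add, ← pow_mul]
          congr 1
          ring
      _ ≤ X ^ (7 * (k * l)) := Nat.pow_le_pow_right hX0 h
      _ = (X ^ 7) ^ (k * l) := by rw [pow_mul]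
  have h2 : k * l ≠ 0 := by positivity
  exact (Nat.pow_le_pow_iff_left h2).1 h1

theorem rad_le {a b c x y k l g : ℕ} (ha : 0 < a) (hx : 0 < x) (hy : 0 < y)
    (hb : b * g = y ^ l) (hc : c * g = x ^ k) :
    ∏ p ∈ (a * b * c).primeFactors, p ≤ a * (x * y) := by
  have hm : a * (x * y) ≠ 0 := by positivity
  have hsub : (a * b * c).primeFactors ⊆ (a * (x * y)).primeFactors := by
    intro p hp
    have hpp := Nat.prime_of_mem_primeFactors hp
    have hpd := Nat.dvd_of_mem_primeFactors hp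
    rw [Nat.mem_primeFactors]
    refine ⟨hpp, ?_, hm⟩
    rcases (Nat.Prime.dvd_mul hpp).1 hpd with h | h
    · rcases (Nat.Prime.dvd_mul hpp).1 h with h | h
      · exact h.mul_right _
      · have h1 : p ∣ y ^ l := by rw [← hb]; exact h.mul_right _
        have h2 := hpp.dvd_of_dvd_pow h1
        exact (h2.mul_left x).mul_left a
    · have h1 : p ∣ x ^ k := by rw [← hc]; exact h.mul_right _
      have h2 := hpp.dvd_of_dvd_pow h1
      exact (h2.mul_right y).mul_left a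
  refine (prod_le_prod_of_subset_of_one_le' hsub ?_).trans ?_
  · intro p hp _
    exact (Nat.prime_of_mem_primeFactors hp).one_le
  · exact Nat.le_of_dvd (Nat.pos_of_ne_zero hm) (Nat.prod_primeFactors_dvd _)

theorem abc_mono {κ K : ℝ} (h : ABC κ K) : ABC (max κ 1) (max K 1) := by
  intro a b c ha hb hab hc
  have h1 := h a b c ha hb hab hc
  have hr : (1 : ℝ) ≤ ((∏ p ∈ (a * b * c).primeFactors, p : ℕ) : ℝ) := by
    have : 1 ≤ ∏ p ∈ (a * b * c).primeFactors, p :=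
      Nat.one_le_iff_ne_zero.2 (prod_ne_zero_iff.2 fun p hp =>
        (Nat.prime_of_mem_primeFactors hp).ne_zero)
    exact_mod_cast this
  calc (c : ℝ) ≤ K * ((∏ p ∈ (a * b * c).primeFactors, p : ℕ) : ℝ) ^ κ := h1
    _ ≤ max K 1 * ((∏ p ∈ (a * b * c).primeFactors, p : ℕ) : ℝ) ^ κ :=
        mul_le_mul_of_nonneg_right (le_max_left _ _) (Real.rpow_nonneg (by linarith) _)
    _ ≤ max K 1 * ((∏ p ∈ (a * b * c).primeFactors, p : ℕ) : ℝ) ^ (max κ 1) :=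
        mul_le_mul_of_nonneg_left (Real.rpow_le_rpow_of_exponent_le hr (le_max_left _ _))
          (le_trans zero_le_one (le_max_right _ _))

/-- the inequality between `X` and `n` -/
theorem height_of_abc {κ K : ℝ} (hκ : 1 ≤ κ) (hK : 1 ≤ K) (habc : ABC κ K) {n x y k l : ℕ}
    (hn0 : 0 < n) (hx : 0 < x) (hy : 0 < y) (h : n + y ^ l = x ^ k)
    (hxy : (x * y) ^ 10 ≤ (x ^ k) ^ 7) :
    ((x ^ k : ℕ) : ℝ) ^ (1 - 7 / 10 * κ) ≤ K * (n : ℝ) ^ κ := by
  set X := x ^ k with hX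
  have hX0 : 0 < X := by positivity
  -- the coprime triple
  set g := Nat.gcd n (y ^ l) with hg
  have hg0 : 0 < g := Nat.gcd_pos_of_pos_left _ hn0
  obtain ⟨a, ha⟩ : g ∣ n := Nat.gcd_dvd_left _ _
  obtain ⟨b, hb⟩ : g ∣ y ^ l := Nat.gcd_dvd_right _ _
  have ha0 : 0 < a := by
    rcases Nat.eq_zero_or_pos a with h0 | h0
    · rw [h0, mul_zero] at ha
      omega
    · exact h0
  have hb0 : 0 < b := by
    rcases Nat.eq_zero_or_pos b with h0 | h0
    · rw [h0, mul_zero] at hb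
      have := Nat.pow_pos (n := l) hy
      omega
    · exact h0
  have hab : Nat.Coprime a b := by
    have h1 : g = g * Nat.gcd a b := by
      conv_lhs => rw [hg, ha, hb, Nat.gcd_mul_left]
    have h2 : g * 1 = g * Nat.gcd a b := by rw [mul_one]; exact h1
    exact (Nat.eq_of_mul_eq_mul_left hg0 h2).symm
  have hc : g * (a + b) = X := by
    rw [mul_add, ← ha, ← hb]
    exact h
  have h1 := habc a b (a + b) ha0 hb0 hab rfl
  have h2 := rad_le (a := a) (b := b) (c := a + b) (x := x) (y := y) (k := k) (l := l) (g := g)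
    ha0 hx hy (by rw [mul_comm]; exact hb.symm) (by rw [mul_comm]; exact hc)
  have hXr : (0 : ℝ) < X := by exact_mod_cast hX0
  have hnr : (0 : ℝ) < n := by exact_mod_cast hn0
  have har : (0 : ℝ) < a := by exact_mod_cast ha0
  have hgr : (0 : ℝ) < g := by exact_mod_cast hg0
  have hxyr : (0 : ℝ) < ((x * y : ℕ) : ℝ) := by exact_mod_cast Nat.mul_pos hx hy
  have h3 : ((a + b : ℕ) : ℝ) ≤ K * ((a : ℝ) * ((x * y : ℕ) : ℝ)) ^ κ := by
    refine h1.trans (mul_le_mul_of_nonneg_left ?_ (by linarith))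
    apply Real.rpow_le_rpow (Nat.cast_nonneg _) _ (by linarith)
    exact_mod_cast h2
  have h5 : ((x * y : ℕ) : ℝ) ≤ (X : ℝ) ^ (7 / 10 : ℝ) := by
    have h6 : (((x * y : ℕ) : ℝ)) ^ (10 : ℕ) ≤ ((X : ℝ) ^ (7 / 10 : ℝ)) ^ (10 : ℕ) := by
      rw [← Real.rpow_natCast ((X : ℝ) ^ (7 / 10 : ℝ)) 10, ← Real.rpow_mul hXr.le]
      have : (7 / 10 : ℝ) * ((10 : ℕ) : ℝ) = ((7 : ℕ) : ℝ) := by norm_num
      rw [this, Real.rpow_natCast]
      exact_mod_cast hxy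
    exact le_of_pow_le_pow_left₀ (by norm_num) (by positivity) h6
  have h7 : (X : ℝ) ≤ K * ((n : ℝ) ^ κ * (X : ℝ) ^ (7 / 10 * κ)) := by
    have e1 : (X : ℝ) = g * ((a + b : ℕ) : ℝ) := by
      rw [← hc]
      push_cast
      ring
    have e2 : (g : ℝ) * (a : ℝ) ^ κ ≤ (n : ℝ) ^ κ := by
      have e3 : (n : ℝ) = g * a := by rw [ha]; push_cast; ring
      rw [e3, Real.mul_rpow hgr.le har.le]
      apply mul_le_mul_of_nonneg_right _ (by positivity)
      have : (1 : ℝ) ≤ g := by exact_mod_cast hg0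
      calc (g : ℝ) = (g : ℝ) ^ (1 : ℝ) := (Real.rpow_one _).symm
        _ ≤ (g : ℝ) ^ κ := Real.rpow_le_rpow_of_exponent_le this hκ
    have e4 : ((x * y : ℕ) : ℝ) ^ κ ≤ (X : ℝ) ^ (7 / 10 * κ) := by
      calc ((x * y : ℕ) : ℝ) ^ κ ≤ ((X : ℝ) ^ (7 / 10 : ℝ)) ^ κ :=
            Real.rpow_le_rpow hxyr.le h5 (by linarith)
        _ = _ := by rw [← Real.rpow_mul hXr.le]
    rw [Real.mul_rpow har.le hxyr.le] at h3
    calc (X : ℝ) = g * ((a + b : ℕ) : ℝ) := e1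
      _ ≤ g * (K * ((a : ℝ) ^ κ * ((x * y : ℕ) : ℝ) ^ κ)) :=
          mul_le_mul_of_nonneg_left h3 hgr.le
      _ = K * ((g * (a : ℝ) ^ κ) * ((x * y : ℕ) : ℝ) ^ κ) := by ring
      _ ≤ K * ((n : ℝ) ^ κ * (X : ℝ) ^ (7 / 10 * κ)) := by
          apply mul_le_mul_of_nonneg_left _ (by linarith)
          exact mul_le_mul e2 e4 (by positivity) (by positivity)
  have h9 : (X : ℝ) ^ (1 - 7 / 10 * κ) * (X : ℝ) ^ (7 / 10 * κ) ≤
      (K * (n : ℝ) ^ κ) * (X : ℝ) ^ (7 / 10 * κ) := by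
    rw [← Real.rpow_add hXr, sub_add_cancel, Real.rpow_one, mul_assoc]
    exact h7
  exact le_of_mul_le_mul_right h9 (by positivity)

theorem not_repr_of_good {κ K : ℝ} (hκ20 : κ < 20 / 19) (h0 : ABC κ K) :
    ∃ n₀ : ℕ, ∀ n : ℕ, n₀ ≤ n → Good n → ¬ Repr n := by
  have habc := abc_mono h0
  have hκ : (1 : ℝ) ≤ max κ 1 := le_max_right _ _
  have hκ' : max κ 1 < 20 / 19 := max_lt hκ20 (by norm_num)
  have hK1 : (1 : ℝ) ≤ max K 1 := le_max_right _ _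
  generalize max K 1 = K' at habc hK1
  generalize max κ 1 = μ at habc hκ hκ'
  have hδ : 0 < 4 - 38 / 10 * μ := by linarith
  obtain ⟨M, hM⟩ := exists_nat_ge (K' ^ (1 / (4 - 38 / 10 * μ)))
  refine ⟨M + 2, fun n hn hgood ⟨x, y, k, l, hx, hy, hk, hl, h⟩ => ?_⟩
  obtain ⟨hhigh, hco, htype⟩ := hgood x y k l hx hy hk hl h
  have hn0 : 0 < n := by omega
  have h23 : ¬ (2 ∣ k ∧ 3 ∣ l) := by
    rintro ⟨h1, h2⟩
    have := htype 2 (by simp) 3 (by simp) h1 h2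
    simp at this
  have h32 : ¬ (3 ∣ k ∧ 2 ∣ l) := by
    rintro ⟨h1, h2⟩
    have := htype 3 (by simp) 2 (by simp) h1 h2
    simp at this
  have hexp := exps_of_good hk hl hco h23 h32
  have hX0 : 0 < x ^ k := by positivity
  have hYX : y ^ l ≤ x ^ k := by omega
  have hxy := prod_small hk hl rfl hYX hX0 hexp
  have h8 := height_of_abc hκ hK1 habc hn0 hx hy h hxy
  have hnr : (0 : ℝ) < n := by exact_mod_cast hn0
  have h10 : (n : ℝ) ^ (4 * (1 - 7 / 10 * μ)) ≤ ((x ^ k : ℕ) : ℝ) ^ (1 - 7 / 10 * μ) := by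
    have h11 : (n : ℝ) ^ (4 : ℕ) ≤ ((x ^ k : ℕ) : ℝ) := by exact_mod_cast hhigh.le
    calc (n : ℝ) ^ (4 * (1 - 7 / 10 * μ)) = ((n : ℝ) ^ (4 : ℕ)) ^ (1 - 7 / 10 * μ) := by
          rw [← Real.rpow_natCast, ← Real.rpow_mul hnr.le]
          norm_num
      _ ≤ _ := Real.rpow_le_rpow (by positivity) h11 (by linarith)
  have h12 : (n : ℝ) ^ (4 - 38 / 10 * μ) ≤ K' := by
    have h13 : (n : ℝ) ^ (4 - 38 / 10 * μ) * (n : ℝ) ^ μ ≤ K' * (n : ℝ) ^ μ := by
      rw [← Real.rpow_add hnr]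
      refine le_trans (le_of_eq ?_) (h10.trans h8)
      congr 1
      ring
    exact le_of_mul_le_mul_right h13 (by positivity)
  have h14 : (n : ℝ) ≤ K' ^ (1 / (4 - 38 / 10 * μ)) := by
    calc (n : ℝ) = ((n : ℝ) ^ (4 - 38 / 10 * μ)) ^ (1 / (4 - 38 / 10 * μ)) := by
          rw [← Real.rpow_mul hnr.le, mul_one_div_cancel hδ.ne', Real.rpow_one]
      _ ≤ K' ^ (1 / (4 - 38 / 10 * μ)) :=
          Real.rpow_le_rpow (by positivity) h12 (by positivity)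
  have h15 : (n : ℝ) ≤ M := h14.trans hM
  have h16 : n ≤ M := by exact_mod_cast h15
  omega

/-- the set of the non-representable integers up to `N` -/
def NR (N : ℕ) : Set ℕ := {n : ℕ | 0 < n ∧ n ≤ N ∧ ¬ Repr n}

theorem NR_finite (N : ℕ) : (NR N).Finite := (Set.finite_Iic N).subset (fun _ hn => hn.2.1)

theorem growth {c B : ℝ} (hc : 0 < c) : ∃ N₁ : ℕ, ∀ N : ℕ, N₁ ≤ N →
    B ≤ c * ((N : ℝ) ^ (5 / 6 : ℝ) / Real.log N) := by
  obtain ⟨M, hM⟩ := exists_nat_ge (3 * |B| / c)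
  refine ⟨M ^ 2 + 2, fun N hN => ?_⟩
  have hN2 : (2 : ℝ) ≤ N := by
    have : 2 ≤ N := by
      have := Nat.zero_le (M ^ 2)
      omega
    exact_mod_cast this
  have hN0 : (0 : ℝ) < N := by linarith
  have hlog : 0 < Real.log N := Real.log_pos (by linarith)
  have h1 : Real.log N ≤ 3 * (N : ℝ) ^ (1 / 3 : ℝ) := by
    have := Real.log_le_rpow_div hN0.le (show (0 : ℝ) < 1 / 3 by norm_num)
    linarith
  have h2 : (M : ℝ) ≤ (N : ℝ) ^ (1 / 2 : ℝ) := by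
    have h3 : ((M : ℝ)) ^ (2 : ℕ) ≤ N := by
      have : M ^ 2 ≤ N := by omega
      exact_mod_cast this
    calc (M : ℝ) = ((M : ℝ) ^ (2 : ℕ)) ^ (1 / 2 : ℝ) := by
          rw [← Real.rpow_natCast, ← Real.rpow_mul (Nat.cast_nonneg _)]
          norm_num
      _ ≤ _ := Real.rpow_le_rpow (by positivity) h3 (by norm_num)
  have h4 : (N : ℝ) ^ (1 / 2 : ℝ) / 3 ≤ (N : ℝ) ^ (5 / 6 : ℝ) / Real.log N := by
    rw [div_le_div_iff₀ (by norm_num) hlog]
    calc (N : ℝ) ^ (1 / 2 : ℝ) * Real.log N ≤ (N : ℝ) ^ (1 / 2 : ℝ) * (3 * (N : ℝ) ^ (1 / 3 : ℝ)) :=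
          mul_le_mul_of_nonneg_left h1 (by positivity)
      _ = 3 * ((N : ℝ) ^ (1 / 2 : ℝ) * (N : ℝ) ^ (1 / 3 : ℝ)) := by ring
      _ = 3 * (N : ℝ) ^ (5 / 6 : ℝ) := by
          rw [← Real.rpow_add hN0]
          norm_num
      _ = _ := by ring
  have h5 : |B| ≤ c * ((N : ℝ) ^ (1 / 2 : ℝ) / 3) := by
    have h6 : 3 * |B| / c ≤ (N : ℝ) ^ (1 / 2 : ℝ) := hM.trans h2
    rw [div_le_iff₀ hc] at h6
    linarith
  calc B ≤ |B| := le_abs_self B
    _ ≤ c * ((N : ℝ) ^ (1 / 2 : ℝ) / 3) := h5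
    _ ≤ _ := mul_le_mul_of_nonneg_left h4 hc.le

/-- the number of non-representable integers under the abc conjecture -/
theorem many_of_abc {κ K : ℝ} (hκ : κ < 20 / 19) (habc : ABC κ K) : ∃ c : ℝ, 0 < c ∧ ∃ N₀ : ℕ, ∀ N : ℕ, N₀ ≤ N →
    c * ((N : ℝ) ^ (5 / 6 : ℝ) / Real.log N) ≤ ((NR N).ncard : ℝ) := by
  obtain ⟨n₀, h⟩ := not_repr_of_good hκ habc
  obtain ⟨c, hc, N₀, hN₀⟩ := many_good
  obtain ⟨N₁, hN₁⟩ := growth (c := c / 2) (B := n₀) (by linarith)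
  refine ⟨c / 2, by linarith, N₀ + N₁, fun N hN => ?_⟩
  have h1 := hN₀ N (by omega)
  have h2 := hN₁ N (by omega)
  have h3 : (GG N).ncard ≤ (NR N).ncard + n₀ := by
    have h4 : GG N ⊆ NR N ∪ ((Finset.range n₀ : Finset ℕ) : Set ℕ) := by
      intro n hn
      by_cases h5 : n < n₀
      · right
        rw [mem_coe, mem_range]
        exact h5
      · left
        exact ⟨hn.1, hn.2.1, h n (by omega) hn.2.2⟩
    refine (Set.ncard_le_ncard h4 ((NR_finite N).union (Finset.finite_toSet _))).trans ?_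
    refine (Set.ncard_union_le _ _).trans ?_
    rw [Set.ncard_coe_finset, card_range]
  have h4 : ((GG N).ncard : ℝ) ≤ ((NR N).ncard : ℝ) + n₀ := by exact_mod_cast h3
  have h5 : c * ((N : ℝ) ^ (5 / 6 : ℝ) / Real.log N) =
      c / 2 * ((N : ℝ) ^ (5 / 6 : ℝ) / Real.log N) + c / 2 * ((N : ℝ) ^ (5 / 6 : ℝ) / Real.log N) := by
    ring
  linarith

end PerfectPowerDiff
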