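import Pool.Agent.Lib.MP_cb2e5b_nt.Reps

/-!
Number of `n ≤ N` of the form `|z ^ p - w ^ q|` with `p ≥ 2`, `q ≥ 5`, `w ^ q ≤ N ^ 4`.
-/

set_option autoImplicit false

namespace PerfectPowerDiff

theorem card_le_of_diam {s : Finset ℕ} {B : ℕ}
    (h : ∀ z1 ∈ s, ∀ z2 ∈ s, z1 ≤ z2 → z2 - z1 ≤ B) : s.card ≤ B + 1 := by
  rcases s.eq_empty_or_nonempty with rfl | hs
  · simp
  · have h1 : s ⊆ Finset.Icc (s.min' hs) (s.min' hs + B) := by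
      intro z hz
      have h2 := s.min'_le z hz
      have h3 := h _ (s.min'_mem hs) z hz h2
      rw [Finset.mem_Icc]
      omega
    refine (Finset.card_le_card h1).trans ?_
    rw [Nat.card_Icc]
    omega

theorem pow_add_le (z d : ℕ) (e : ℕ) : z ^ (e + 1) + d ^ (e + 1) ≤ (z + d) ^ (e + 1) := by
  induction e with
  | zero => simp
  | succ e ih =>
    calc z ^ (e + 1 + 1) + d ^ (e + 1 + 1) ≤ (z ^ (e + 1) + d ^ (e + 1)) * (z + d) := by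
          rw [pow_succ z (e + 1), pow_succ d (e + 1)]
          nlinarith [Nat.zero_le (z ^ (e + 1) * d), Nat.zero_le (d ^ (e + 1) * z)]
      _ ≤ (z + d) ^ (e + 1) * (z + d) := Nat.mul_le_mul_right _ ih
      _ = (z + d) ^ (e + 1 + 1) := by rw [← pow_succ]

theorem pow_add_lin (z d : ℕ) (e : ℕ) : z ^ (e + 1) + d * z ^ e ≤ (z + d) ^ (e + 1) := by
  have h1 : z ^ e ≤ (z + d) ^ e := Nat.pow_le_pow_left (by omega) e
  calc z ^ (e + 1) + d * z ^ e = (z + d) * z ^ e := by rw [pow_succ]; ring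
    _ ≤ (z + d) * (z + d) ^ e := Nat.mul_le_mul_left _ h1
    _ = (z + d) ^ (e + 1) := by rw [pow_succ]; ring

/-- two roots near `M`: general bound -/
theorem near_gen {z1 z2 p M N : ℕ} (hp : 2 ≤ p) (h12 : z1 ≤ z2)
    (h1 : M ≤ z1 ^ p + N) (h2 : z2 ^ p ≤ M + N) : (z2 - z1) ^ 2 ≤ 2 * N := by
  obtain ⟨d, rfl⟩ : ∃ d, z2 = z1 + d := ⟨z2 - z1, by omega⟩
  obtain ⟨e, rfl⟩ : ∃ e, p = e + 1 := ⟨p - 1, by omega⟩
  rw [Nat.add_sub_cancel_left]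
  have h3 := pow_add_le z1 d e
  have h4 : d ^ 2 ≤ d ^ (e + 1) := by
    rcases Nat.eq_zero_or_pos d with rfl | hd
    · simp
    · exact Nat.pow_le_pow_right hd hp
  omega

/-- two roots near `M`: bound for large `M` -/
theorem near_big {z1 z2 p M N : ℕ} (hp : 2 ≤ p) (h12 : z1 ≤ z2) (hM : 2 * N ≤ M) (hN : 0 < N)
    (h1 : M ≤ z1 ^ p + N) (h2 : z2 ^ p ≤ M + N) : (z2 - z1) ^ 2 * M ≤ 8 * N ^ 2 := by
  obtain ⟨d, rfl⟩ : ∃ d, z2 = z1 + d := ⟨z2 - z1, by omega⟩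
  obtain ⟨e, rfl⟩ : ∃ e, p = e + 1 := ⟨p - 1, by omega⟩
  rw [Nat.add_sub_cancel_left]
  have h3 := pow_add_lin z1 d e
  have h5 : d * z1 ^ e ≤ 2 * N := by omega
  have hz : 1 ≤ z1 := by
    rcases Nat.eq_zero_or_pos z1 with rfl | hz
    · simp at h1
      omega
    · exact hz
  have h6 : z1 ^ (e + 1) ≤ (z1 ^ e) ^ 2 := by
    rw [← pow_mul]
    exact Nat.pow_le_pow_right hz (by omega)
  have h7 : M ≤ 2 * z1 ^ (e + 1) := by omega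
  calc d ^ 2 * M ≤ d ^ 2 * (2 * (z1 ^ e) ^ 2) := Nat.mul_le_mul_left _ (by omega)
    _ = 2 * (d * z1 ^ e) ^ 2 := by ring
    _ ≤ 2 * (2 * N) ^ 2 := Nat.mul_le_mul_left _ (Nat.pow_le_pow_left h5 2)
    _ = 8 * N ^ 2 := by ring

theorem le_of_sq_le {a b : ℕ} (h : a ^ 2 ≤ b ^ 2) : a ≤ b := by
  by_contra hcon
  have := Nat.pow_lt_pow_left (not_le.1 hcon) (two_ne_zero)
  omega

/-- the `z` with `|z ^ p - M| ≤ N` -/
def ZZ (p M N : ℕ) : Finset ℕ :=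
  (Finset.range (M + N + 1)).filter (fun z => z ^ p ≤ M + N ∧ M ≤ z ^ p + N)

theorem card_ZZ_gen {p M N B : ℕ} (hp : 2 ≤ p) (hB : 2 * N ≤ B ^ 2) : (ZZ p M N).card ≤ B + 1 := by
  apply card_le_of_diam
  intro z1 h1 z2 h2 h12
  unfold ZZ at h1 h2
  rw [Finset.mem_filter] at h1 h2
  have h3 := near_gen hp h12 h1.2.2 h2.2.1
  exact le_of_sq_le (h3.trans hB)

theorem card_ZZ_big {p M N B : ℕ} (hp : 2 ≤ p) (hN : 0 < N) (hM : 2 * N ≤ M)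
    (hB : 8 * N ^ 2 ≤ B ^ 2 * M) : (ZZ p M N).card ≤ B + 1 := by
  apply card_le_of_diam
  intro z1 h1 z2 h2 h12
  unfold ZZ at h1 h2
  rw [Finset.mem_filter] at h1 h2
  have h3 := near_big hp h12 hM hN h1.2.2 h2.2.1
  have h4 : (z2 - z1) ^ 2 ≤ B ^ 2 := by
    refine Nat.le_of_mul_le_mul_right (h3.trans hB) (by omega)
  exact le_of_sq_le h4

/-- the `n = |z ^ p - w ^ q| ≤ N`, for given `w` -/
def VV (p q N w : ℕ) : Finset ℕ :=
  (ZZ p (w ^ q) N).image (fun z => (z ^ p - w ^ q) + (w ^ q - z ^ p))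

theorem card_VV_le {p q N w B : ℕ} (h : (ZZ p (w ^ q) N).card ≤ B) : (VV p q N w).card ≤ B :=
  Finset.card_image_le.trans h

theorem mem_VV_of {p q N w z n : ℕ} (hp : p ≠ 0) (hn : n ≤ N)
    (h : n + w ^ q = z ^ p ∨ n + z ^ p = w ^ q) : n ∈ VV p q N w := by
  unfold VV ZZ
  rw [Finset.mem_image]
  refine ⟨z, ?_, by omega⟩
  rw [Finset.mem_filter, Finset.mem_range]
  have h1 : z ≤ z ^ p := Nat.le_self_pow hp z
  omega

theorem card_three {V : ℕ → Finset ℕ} {a b c B1 B2 B3 : ℕ}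
    (h1 : ∀ w, w ≤ a → (V w).card ≤ B1) (h2 : ∀ w, a < w → w ≤ b → (V w).card ≤ B2)
    (h3 : ∀ w, b < w → w ≤ c → (V w).card ≤ B3) :
    ((Finset.range (c + 1)).biUnion V).card ≤ (a + 1) * B1 + b * B2 + c * B3 := by
  have hsub : (Finset.range (c + 1)).biUnion V ⊆
      ((Finset.range (a + 1)).biUnion V ∪ (Finset.Ioc a b).biUnion V) ∪
        (Finset.Ioc b c).biUnion V := by
    intro n hn
    simp only [Finset.mem_biUnion, Finset.mem_union, Finset.mem_range, Finset.mem_Ioc] at hn ⊢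
    obtain ⟨w, hw, hn⟩ := hn
    by_cases hwa : w ≤ a
    · exact Or.inl (Or.inl ⟨w, by omega, hn⟩)
    · by_cases hwb : w ≤ b
      · exact Or.inl (Or.inr ⟨w, by omega, hn⟩)
      · exact Or.inr ⟨w, by omega, hn⟩
  refine (Finset.card_le_card hsub).trans ((Finset.card_union_le _ _).trans ?_)
  refine Nat.add_le_add ((Finset.card_union_le _ _).trans (Nat.add_le_add ?_ ?_)) ?_
  · refine (Finset.card_biUnion_le_card_mul _ _ B1 ?_).trans (by rw [Finset.card_range])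
    intro w hw
    rw [Finset.mem_range] at hw
    exact h1 w (by omega)
  · refine (Finset.card_biUnion_le_card_mul _ _ B2 ?_).trans ?_
    · intro w hw
      rw [Finset.mem_Ioc] at hw
      exact h2 w hw.1 hw.2
    · rw [Nat.card_Ioc]
      exact Nat.mul_le_mul_right _ (by omega)
  · refine (Finset.card_biUnion_le_card_mul _ _ B3 ?_).trans ?_
    · intro w hw
      rw [Finset.mem_Ioc] at hw
      exact h3 w hw.1 hw.2
    · rw [Nat.card_Ioc]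
      exact Nat.mul_le_mul_right _ (by omega)

theorem card_pq {p q D : ℕ} (hp : 2 ≤ p) (hq : 5 ≤ q) (hD : 8 ≤ D) :
    ((Finset.range (2 ^ 26 * D ^ 24 + 1)).biUnion (VV p q (2 ^ 32 * D ^ 30))).card ≤
      2 ^ 62 * D ^ 24 := by
  have hD0 : 0 < D := by omega
  have hD15 : 2 ^ 33 ≤ D ^ 15 := by
    calc 2 ^ 33 ≤ 8 ^ 15 := by norm_num
      _ ≤ D ^ 15 := Nat.pow_le_pow_left hD 15
  have hN : 0 < 2 ^ 32 * D ^ 30 := by positivity
  have h1 : ∀ w, w ≤ D ^ 9 → (VV p q (2 ^ 32 * D ^ 30) w).card ≤ 2 ^ 17 * D ^ 15 + 1 := by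
    intro w _
    apply card_VV_le
    apply card_ZZ_gen hp
    calc 2 * (2 ^ 32 * D ^ 30) = 2 ^ 33 * D ^ 30 := by ring
      _ ≤ 2 ^ 34 * D ^ 30 := Nat.mul_le_mul_right _ (by norm_num)
      _ = (2 ^ 17 * D ^ 15) ^ 2 := by ring
  have hwq : ∀ w, D ^ 9 < w → D ^ 45 ≤ w ^ q := by
    intro w hw
    have hw1 : 1 ≤ w := by omega
    calc D ^ 45 = (D ^ 9) ^ 5 := by ring
      _ ≤ w ^ 5 := Nat.pow_le_pow_left hw.le 5
      _ ≤ w ^ q := Nat.pow_le_pow_right hw1 hq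
  have hM : ∀ w, D ^ 9 < w → 2 * (2 ^ 32 * D ^ 30) ≤ w ^ q := by
    intro w hw
    refine le_trans ?_ (hwq w hw)
    calc 2 * (2 ^ 32 * D ^ 30) = 2 ^ 33 * D ^ 30 := by ring
      _ ≤ D ^ 15 * D ^ 30 := Nat.mul_le_mul_right _ hD15
      _ = D ^ 45 := by ring
  have h2 : ∀ w, D ^ 9 < w → w ≤ D ^ 12 → (VV p q (2 ^ 32 * D ^ 30) w).card ≤
      2 ^ 34 * D ^ 8 + 1 := by
    intro w hw _
    apply card_VV_le
    apply card_ZZ_big hp hN (hM w hw)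
    calc 8 * (2 ^ 32 * D ^ 30) ^ 2 = 2 ^ 67 * D ^ 60 := by ring
      _ ≤ 2 ^ 68 * D ^ 61 := Nat.mul_le_mul (by norm_num) (Nat.pow_le_pow_right hD0 (by norm_num))
      _ = (2 ^ 34 * D ^ 8) ^ 2 * D ^ 45 := by ring
      _ ≤ (2 ^ 34 * D ^ 8) ^ 2 * w ^ q := Nat.mul_le_mul_left _ (hwq w hw)
  have h3 : ∀ w, D ^ 12 < w → w ≤ 2 ^ 26 * D ^ 24 → (VV p q (2 ^ 32 * D ^ 30) w).card ≤
      2 ^ 34 + 1 := by
    intro w hw _
    have hw' : D ^ 9 < w := lt_of_le_of_lt (Nat.pow_le_pow_right hD0 (by norm_num)) hw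
    apply card_VV_le
    apply card_ZZ_big hp hN (hM w hw')
    have hw1 : 1 ≤ w := by omega
    calc 8 * (2 ^ 32 * D ^ 30) ^ 2 = 2 ^ 67 * D ^ 60 := by ring
      _ ≤ 2 ^ 68 * (D ^ 12) ^ 5 := by rw [← pow_mul]; exact Nat.mul_le_mul_right _ (by norm_num)
      _ ≤ 2 ^ 68 * w ^ 5 := Nat.mul_le_mul_left _ (Nat.pow_le_pow_left hw.le 5)
      _ ≤ 2 ^ 68 * w ^ q := Nat.mul_le_mul_left _ (Nat.pow_le_pow_right hw1 hq)
      _ = (2 ^ 34) ^ 2 * w ^ q := by norm_num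
  refine (card_three h1 h2 h3).trans ?_
  have e9 : 1 ≤ D ^ 9 := Nat.one_le_pow _ _ hD0
  have e15 : 1 ≤ D ^ 15 := Nat.one_le_pow _ _ hD0
  have e8 : 1 ≤ D ^ 8 := Nat.one_le_pow _ _ hD0
  have i1 : (D ^ 9 + 1) * (2 ^ 17 * D ^ 15 + 1) ≤ 2 ^ 19 * D ^ 24 := by
    calc (D ^ 9 + 1) * (2 ^ 17 * D ^ 15 + 1) ≤ (2 * D ^ 9) * (2 ^ 18 * D ^ 15) :=
          Nat.mul_le_mul (by omega) (by omega)
      _ = 2 ^ 19 * D ^ 24 := by ring
  have i2 : D ^ 12 * (2 ^ 34 * D ^ 8 + 1) ≤ 2 ^ 35 * D ^ 24 := by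
    calc D ^ 12 * (2 ^ 34 * D ^ 8 + 1) ≤ D ^ 12 * (2 ^ 35 * D ^ 8) :=
          Nat.mul_le_mul_left _ (by omega)
      _ = 2 ^ 35 * D ^ 20 := by ring
      _ ≤ 2 ^ 35 * D ^ 24 := Nat.mul_le_mul_left _ (Nat.pow_le_pow_right hD0 (by norm_num))
  have i3 : 2 ^ 26 * D ^ 24 * (2 ^ 34 + 1) ≤ 2 ^ 61 * D ^ 24 := by
    have : 2 ^ 26 * D ^ 24 * (2 ^ 34 + 1) = (2 ^ 26 * (2 ^ 34 + 1)) * D ^ 24 := by ring
    rw [this]
    exact Nat.mul_le_mul_right _ (by norm_num)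
  have i4 : 2 ^ 19 * D ^ 24 + 2 ^ 35 * D ^ 24 + 2 ^ 61 * D ^ 24 ≤ 2 ^ 62 * D ^ 24 := by
    rw [← add_mul, ← add_mul]
    exact Nat.mul_le_mul_right _ (by norm_num)
  omega

/-- the bad integers up to `N = 2 ^ 32 D ^ 30` -/
def BadSet (D L : ℕ) : Finset ℕ :=
  ((Finset.Ico 2 L) ×ˢ (Finset.Ico 5 L)).biUnion
    (fun t => (Finset.range (2 ^ 26 * D ^ 24 + 1)).biUnion (VV t.1 t.2 (2 ^ 32 * D ^ 30)))

theorem card_BadSet {D L : ℕ} (hD : 8 ≤ D) : (BadSet D L).card ≤ L ^ 2 * (2 ^ 62 * D ^ 24) := by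
  unfold BadSet
  refine (Finset.card_biUnion_le_card_mul _ _ (2 ^ 62 * D ^ 24) ?_).trans ?_
  · rintro ⟨p, q⟩ ht
    rw [Finset.mem_product, Finset.mem_Ico, Finset.mem_Ico] at ht
    exact card_pq ht.1.1 ht.2.1 hD
  · apply Nat.mul_le_mul_right
    rw [Finset.card_product, Nat.card_Ico, Nat.card_Ico, sq]
    exact Nat.mul_le_mul (by omega) (by omega)

/-- low representations are in the bad set -/
theorem mem_BadSet {D L n x y k l : ℕ} (hL : (2 ^ 32 * D ^ 30) ^ 4 < 2 ^ L) (hL6 : 6 ≤ L)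
    (hn0 : 0 < n) (hn : n ≤ 2 ^ 32 * D ^ 30)
    (hx : 0 < x) (hy : 0 < y) (hk : 2 ≤ k) (hl : 2 ≤ l) (h : n + y ^ l = x ^ k)
    (hlow : x ^ k ≤ n ^ 4) (h5 : 5 ≤ k ∨ 5 ≤ l) : n ∈ BadSet D L := by
  have hN4 : n ^ 4 ≤ (2 ^ 32 * D ^ 30) ^ 4 := Nat.pow_le_pow_left hn 4
  have hylow : y ^ l ≤ (2 ^ 32 * D ^ 30) ^ 4 := by omega
  have hxlow : x ^ k ≤ (2 ^ 32 * D ^ 30) ^ 4 := by omega
  have hx2 : 2 ≤ x := by
    by_contra hcon
    have : x = 1 := by omega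
    rw [this, one_pow] at h
    have := Nat.one_le_pow l y hy
    omega
  have hexp : ∀ u m : ℕ, 2 ≤ u → u ^ m ≤ (2 ^ 32 * D ^ 30) ^ 4 → m < L := by
    intro u m hu hum
    have h1 : 2 ^ m < 2 ^ L := lt_of_le_of_lt ((Nat.pow_le_pow_left hu m).trans hum) hL
    exact (Nat.pow_lt_pow_iff_right (by norm_num)).1 h1
  have hbase : ∀ u m : ℕ, 0 < u → 5 ≤ m → u ^ m ≤ (2 ^ 32 * D ^ 30) ^ 4 →
      u < 2 ^ 26 * D ^ 24 + 1 := by
    intro u m hu hm hum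
    by_contra hcon
    have h1 : 2 ^ 26 * D ^ 24 < u := by omega
    have h2 : (2 ^ 26 * D ^ 24) ^ 5 < u ^ 5 := Nat.pow_lt_pow_left h1 (by norm_num)
    have h3 : u ^ 5 ≤ u ^ m := Nat.pow_le_pow_right hu hm
    have h4 : (2 ^ 32 * D ^ 30) ^ 4 ≤ (2 ^ 26 * D ^ 24) ^ 5 := by
      calc (2 ^ 32 * D ^ 30) ^ 4 = 2 ^ 128 * D ^ 120 := by ring
        _ ≤ 2 ^ 130 * D ^ 120 := Nat.mul_le_mul_right _ (by norm_num)
        _ = (2 ^ 26 * D ^ 24) ^ 5 := by ring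
    omega
  have main : ∀ p q z w : ℕ, 2 ≤ p → p < L → 5 ≤ q → q < L → 0 < w →
      w ^ q ≤ (2 ^ 32 * D ^ 30) ^ 4 → (n + w ^ q = z ^ p ∨ n + z ^ p = w ^ q) →
      n ∈ BadSet D L := by
    intro p q z w hp hpL hq hqL hw hwN hnz
    unfold BadSet
    rw [Finset.mem_biUnion]
    refine ⟨(p, q), ?_, ?_⟩
    · rw [Finset.mem_product, Finset.mem_Ico, Finset.mem_Ico]
      exact ⟨⟨hp, hpL⟩, ⟨hq, hqL⟩⟩
    · rw [Finset.mem_biUnion]
      refine ⟨w, ?_, mem_VV_of (by omega) hn hnz⟩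
      rw [Finset.mem_range]
      exact hbase w q hw hq hwN
  rcases Nat.lt_or_ge y 2 with hy1 | hy2
  · -- y = 1
    have hy' : y = 1 := by omega
    rw [hy', one_pow] at h
    refine main k 5 x 1 hk (hexp x k hx2 hxlow) le_rfl (by omega) one_pos ?_ (Or.inl ?_)
    · rw [one_pow]
      have := Nat.one_le_pow k x hx
      omega
    · rw [one_pow]
      exact h
  · rcases h5 with h5 | h5
    · exact main l k y x hl (hexp y l hy2 hylow) h5 (hexp x k hx2 hxlow) hx hxlow (Or.inr h)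
    · exact main k l x y hk (hexp x k hx2 hxlow) h5 (hexp y l hy2 hylow) hy hylow (Or.inl h)

end PerfectPowerDiff
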