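import Pool.Agent.Lib.MP_7b7e48_nt.GT.PNTAP

/-!
Many primes of a residue class in every large block `[2 ^ (15 i), 2 ^ (15 (i + 1)))`.
-/

set_option autoImplicit false

open Finset

namespace PerfectPowerDiff

/-- the primes of the class in a block -/
def PB (q a i : ℕ) : Finset ℕ :=
  (Ico (2 ^ (15 * i)) (2 ^ (15 * (i + 1)))).filter (fun p => p.Prime ∧ p % q = a % q)

theorem block_le (q a i : ℕ) :
    ∑ n ∈ (Ico (2 ^ (15 * i)) (2 ^ (15 * (i + 1)))).filter (fun n => n % q = a % q),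
      Pool.Agent.Lib.GT.lam n ≤ ((PB q a i).card : ℝ) * (15 * (i + 1)) := by
  have h1 : ∑ n ∈ (Ico (2 ^ (15 * i)) (2 ^ (15 * (i + 1)))).filter (fun n => n % q = a % q),
      Pool.Agent.Lib.GT.lam n = ∑ n ∈ PB q a i, Real.log n := by
    unfold PB Pool.Agent.Lib.GT.lam
    rw [← sum_filter, filter_filter]
    refine sum_congr ?_ (fun _ _ => rfl)
    ext n
    simp only [mem_filter]
    tauto
  rw [h1, ← nsmul_eq_mul]
  apply sum_le_card_nsmul
  intro n hn
  unfold PB at hn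
  rw [mem_filter, mem_Ico] at hn
  obtain ⟨⟨-, hn2⟩, hn3, -⟩ := hn
  have hn0 : (0 : ℝ) < n := by exact_mod_cast hn3.pos
  have h4 : (n : ℝ) ≤ 2 ^ (15 * (i + 1)) := by exact_mod_cast hn2.le
  calc Real.log n ≤ Real.log (2 ^ (15 * (i + 1))) := Real.log_le_log hn0 h4
    _ = ((15 * (i + 1) : ℕ) : ℝ) * Real.log 2 := by rw [Real.log_pow]
    _ ≤ ((15 * (i + 1) : ℕ) : ℝ) * 1 := by
        apply mul_le_mul_of_nonneg_left _ (Nat.cast_nonneg _)
        have := Real.log_two_lt_d9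
        linarith
    _ = 15 * (i + 1) := by push_cast; ring

theorem primes_all (q a : ℕ) (hq : 0 < q) (ha : Nat.Coprime a q) :
    ∃ i0 : ℕ, ∀ i : ℕ, i0 ≤ i → 2 ^ (15 * i) ≤ 15 * q * (i + 1) * (PB q a i).card := by
  have hφ : 0 < (q.totient : ℝ) := by exact_mod_cast Nat.totient_pos.2 hq
  have h1 := Pool.Agent.Lib.GT.pnt_ap q a hq ha
  have hδ : (0 : ℝ) < 1 / (4 * q.totient) := by positivity
  have h2 := (h1.eventually (Metric.ball_mem_nhds _ hδ)).exists_forall_of_atTop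
  obtain ⟨N1, hN1⟩ := h2
  refine ⟨N1 + 1, fun i hi => ?_⟩
  have hA : i < 2 ^ (15 * i) := by
    have h3 : i < 2 ^ i := Nat.lt_two_pow_self
    have h4 : 2 ^ i ≤ 2 ^ (15 * i) := Nat.pow_le_pow_right two_pos (by omega)
    omega
  have hB : 2 ^ (15 * (i + 1)) = 32768 * 2 ^ (15 * i) := by
    have : 15 * (i + 1) = 15 + 15 * i := by ring
    rw [this, pow_add]
    norm_num
  have hblock := block_le q a i
  rw [hB] at hblock
  set A := 2 ^ (15 * i) with hAdef
  have e1 := hN1 (A - 1) (by omega)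
  have e2 := hN1 (32768 * A - 1) (by omega)
  rw [Real.dist_eq, abs_lt] at e1 e2
  have hA1 : (0 : ℝ) < ((A - 1 : ℕ) : ℝ) := by
    have : 0 < A - 1 := by omega
    exact_mod_cast this
  have hB1 : (0 : ℝ) < ((32768 * A - 1 : ℕ) : ℝ) := by
    have : 0 < 32768 * A - 1 := by omega
    exact_mod_cast this
  have e3 : ∑ n ∈ Icc 1 (A - 1) with n % q = a % q, Pool.Agent.Lib.GT.lam n ≤
      (1 / q.totient + 1 / (4 * q.totient)) * ((A - 1 : ℕ) : ℝ) := by
    rw [← div_le_iff₀ hA1]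
    linarith [e1.2]
  have e4 : (1 / q.totient - 1 / (4 * q.totient)) * ((32768 * A - 1 : ℕ) : ℝ) ≤
      ∑ n ∈ Icc 1 (32768 * A - 1) with n % q = a % q, Pool.Agent.Lib.GT.lam n := by
    rw [← le_div_iff₀ hB1]
    linarith [e2.1]
  have e5 : ∑ n ∈ Icc 1 (32768 * A - 1) with n % q = a % q, Pool.Agent.Lib.GT.lam n =
      ∑ n ∈ Icc 1 (A - 1) with n % q = a % q, Pool.Agent.Lib.GT.lam n +
      ∑ n ∈ (Ico A (32768 * A)).filter (fun n => n % q = a % q), Pool.Agent.Lib.GT.lam n := by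
    rw [← sum_union]
    · refine sum_congr ?_ (fun _ _ => rfl)
      ext n
      simp only [mem_union, mem_filter, mem_Icc, mem_Ico]
      omega
    · rw [disjoint_left]
      intro n hn hn'
      simp only [mem_filter, mem_Icc, mem_Ico] at hn hn'
      omega
  have cA : ((A - 1 : ℕ) : ℝ) = (A : ℝ) - 1 := by
    rw [Nat.cast_sub (by omega)]
    simp
  have cB : ((32768 * A - 1 : ℕ) : ℝ) = 32768 * (A : ℝ) - 1 := by
    rw [Nat.cast_sub (by omega)]
    push_cast
    ring
  rw [cA] at e3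
  rw [cB] at e4
  have hAr : (1 : ℝ) ≤ A := by exact_mod_cast (by omega : 1 ≤ A)
  have e6 : (A : ℝ) / q.totient ≤ ((PB q a i).card : ℝ) * (15 * (i + 1)) := by
    refine le_trans ?_ hblock
    have e7 : (1 / (q.totient : ℝ) - 1 / (4 * q.totient)) = (3 / 4) * (1 / q.totient) := by
      field_simp
      ring
    have e8 : (1 / (q.totient : ℝ) + 1 / (4 * q.totient)) = (5 / 4) * (1 / q.totient) := by
      field_simp
      ring
    rw [e7] at e4
    rw [e8] at e3
    have e9 : 0 < 1 / (q.totient : ℝ) := by positivity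
    have e10 : (A : ℝ) / q.totient = A * (1 / q.totient) := by ring
    rw [e10]
    nlinarith
  have hφq : (q.totient : ℝ) ≤ q := by exact_mod_cast Nat.totient_le q
  have e11 : (A : ℝ) ≤ 15 * q * (i + 1) * (PB q a i).card := by
    rw [div_le_iff₀ hφ] at e6
    refine e6.trans ?_
    have e12 : (0 : ℝ) ≤ ((PB q a i).card : ℝ) * (15 * (i + 1)) := by positivity
    calc ((PB q a i).card : ℝ) * (15 * (i + 1)) * q.totient
        ≤ ((PB q a i).card : ℝ) * (15 * (i + 1)) * q := mul_le_mul_of_nonneg_left hφq e12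
      _ = _ := by ring
  exact_mod_cast e11

end PerfectPowerDiff
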