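import Mathlib

/-!
Congruence obstructions to `n = x^p - y^q` for small exponents.
-/

set_option autoImplicit false

namespace PerfectPowerDiff

theorem loc9 : ∀ u v : ZMod 9, u ^ 3 - v ^ 3 ≠ 5 := by decide +kernel

theorem loc11 : ∀ u v : ZMod 11, u ^ 2 - v ^ 5 ≠ 7 := by decide +kernel

theorem loc31 : ∀ u v : ZMod 31, u ^ 3 - v ^ 5 ≠ 12 ∧ u ^ 5 - v ^ 3 ≠ 12 := by decide +kernel

theorem loc43 : ∀ u v : ZMod 43, u ^ 3 - v ^ 7 ≠ 13 ∧ u ^ 7 - v ^ 3 ≠ 13 := by decide +kernel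

theorem loc71 : ∀ u v : ZMod 71, u ^ 5 - v ^ 7 ≠ 10 ∧ u ^ 7 - v ^ 5 ≠ 10 := by decide +kernel

end PerfectPowerDiff
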