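import Pool.Agent.Lib.MP_cb2e5b_nt.Mordell
import Pool.Agent.Lib.MP_cb2e5b_nt.Local

/-!
Exponents excluded for `n = 2 b^2 + c^3` with `b` prime, `b` and `c` in suitable residue classes.
-/

set_option autoImplicit false

namespace PerfectPowerDiff

/-- the modulus -/
def MM : ℕ := 74957256

theorem height_same {n X Y d : ℕ} (hd : 2 ≤ d) (hn : 0 < n) (h : n + Y ^ d = X ^ d) :
    X ^ d ≤ n ^ 2 := by
  have hd0 : d ≠ 0 := by omega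
  have hYX : Y < X := by
    by_contra hcon
    have := Nat.pow_le_pow_left (not_lt.1 hcon) d
    omega
  have hX : 1 ≤ X := by omega
  obtain ⟨e, rfl⟩ : ∃ e, d = e + 1 := ⟨d - 1, by omega⟩
  have h1 : Y ^ (e + 1) ≤ (X - 1) * X ^ e := by
    rw [pow_succ, mul_comm]
    exact Nat.mul_le_mul (by omega) (Nat.pow_le_pow_left (by omega) e)
  have h2 : (X - 1) * X ^ e + X ^ e = X ^ (e + 1) := by
    obtain ⟨z, rfl⟩ : ∃ z, X = z + 1 := ⟨X - 1, by omega⟩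
    simp only [Nat.add_sub_cancel]
    ring
  have h3 : X ^ e ≤ n := by omega
  calc X ^ (e + 1) ≤ X ^ (e * 2) := Nat.pow_le_pow_right hX (by omega)
    _ = (X ^ e) ^ 2 := by rw [pow_mul]
    _ ≤ n ^ 2 := Nat.pow_le_pow_left h3 2

section

variable {b c : ℕ} (hb : b.Prime) (hbM : b % 74957256 = 71733289) (hcM : c % 74957256 = 22536396)

include hbM hcM

theorem res_mod (m β γ r : ℕ) (hm : 74957256 % m = 0) (hβ : 71733289 % m = β)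
    (hγ : 22536396 % m = γ) (hr : (2 * β ^ 2 + γ ^ 3) % m = r) :
    ((2 * b ^ 2 + c ^ 3 : ℕ) : ZMod m) = (r : ZMod m) := by
  have hb' : ((b : ℕ) : ZMod m) = (β : ZMod m) := by
    rw [ZMod.natCast_eq_natCast_iff']
    rw [← hβ, ← hbM, Nat.mod_mod, Nat.mod_mod_of_dvd _ (Nat.dvd_of_mod_eq_zero hm)]
  have hc' : ((c : ℕ) : ZMod m) = (γ : ZMod m) := by
    rw [ZMod.natCast_eq_natCast_iff']
    rw [← hγ, ← hcM, Nat.mod_mod, Nat.mod_mod_of_dvd _ (Nat.dvd_of_mod_eq_zero hm)]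
  rw [← hr]
  push_cast
  rw [hb', hc']
  have : ((((2 * β ^ 2 + γ ^ 3) % m : ℕ)) : ZMod m) = ((2 * β ^ 2 + γ ^ 3 : ℕ) : ZMod m) :=
    ZMod.natCast_mod _ m
  rw [this]
  push_cast
  rfl

omit hbM hcM in
theorem cast_eq {n X Y m p q r : ℕ} (hn : ((n : ℕ) : ZMod m) = (r : ZMod m))
    (h : n + Y ^ q = X ^ p) : (X : ZMod m) ^ p - (Y : ZMod m) ^ q = r := by
  have h1 := congrArg (fun z : ℕ => (z : ZMod m)) h
  push_cast at h1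
  rw [← h1, ← hn]
  ring

include hb

theorem no_23 (X Y : ℕ) : 2 * b ^ 2 + c ^ 3 + Y ^ 3 ≠ X ^ 2 := by
  intro h
  apply mordell_one (c := c) hb (by omega) (by omega) (X : ℤ) (Y : ℤ)
  have h1 : ((2 * b ^ 2 + c ^ 3 + Y ^ 3 : ℕ) : ℤ) = ((X ^ 2 : ℕ) : ℤ) := by rw [h]
  push_cast at h1
  linear_combination -h1

theorem no_32 (X Y : ℕ) : 2 * b ^ 2 + c ^ 3 + Y ^ 2 ≠ X ^ 3 := by
  intro h
  apply mordell_two (c := c) hb (by omega) (by omega) (Y : ℤ) (X : ℤ)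
  have h1 : ((2 * b ^ 2 + c ^ 3 + Y ^ 2 : ℕ) : ℤ) = ((X ^ 3 : ℕ) : ℤ) := by rw [h]
  push_cast at h1
  linear_combination -h1

omit hb

theorem no_22 (X Y : ℕ) : 2 * b ^ 2 + c ^ 3 + Y ^ 2 ≠ X ^ 2 := by
  intro h
  have h1 := cast_eq (res_mod hbM hcM 4 1 0 2 rfl rfl rfl rfl) h
  have key : ∀ u v : ZMod 4, u ^ 2 - v ^ 2 ≠ (2 : ℕ) := by decide
  exact key _ _ h1

theorem no_33 (X Y : ℕ) : 2 * b ^ 2 + c ^ 3 + Y ^ 3 ≠ X ^ 3 := by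
  intro h
  have h1 := cast_eq (res_mod hbM hcM 9 4 0 5 rfl rfl rfl rfl) h
  exact loc9 _ _ h1

theorem no_25 (X Y : ℕ) : 2 * b ^ 2 + c ^ 3 + Y ^ 5 ≠ X ^ 2 := by
  intro h
  have h1 := cast_eq (res_mod hbM hcM 11 1 3 7 rfl rfl rfl rfl) h
  exact loc11 _ _ h1

theorem no_35 (X Y : ℕ) : 2 * b ^ 2 + c ^ 3 + Y ^ 5 ≠ X ^ 3 := by
  intro h
  have h1 := cast_eq (res_mod hbM hcM 31 2 16 12 rfl rfl rfl rfl) h
  exact (loc31 _ _).1 h1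

theorem no_53 (X Y : ℕ) : 2 * b ^ 2 + c ^ 3 + Y ^ 3 ≠ X ^ 5 := by
  intro h
  have h1 := cast_eq (res_mod hbM hcM 31 2 16 12 rfl rfl rfl rfl) h
  exact (loc31 _ _).2 h1

theorem no_37 (X Y : ℕ) : 2 * b ^ 2 + c ^ 3 + Y ^ 7 ≠ X ^ 3 := by
  intro h
  have h1 := cast_eq (res_mod hbM hcM 43 1 10 13 rfl rfl rfl rfl) h
  exact (loc43 _ _).1 h1

theorem no_73 (X Y : ℕ) : 2 * b ^ 2 + c ^ 3 + Y ^ 3 ≠ X ^ 7 := by
  intro h
  have h1 := cast_eq (res_mod hbM hcM 43 1 10 13 rfl rfl rfl rfl) h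
  exact (loc43 _ _).2 h1

theorem no_57 (X Y : ℕ) : 2 * b ^ 2 + c ^ 3 + Y ^ 7 ≠ X ^ 5 := by
  intro h
  have h1 := cast_eq (res_mod hbM hcM 71 1 2 10 rfl rfl rfl rfl) h
  exact (loc71 _ _).1 h1

theorem no_75 (X Y : ℕ) : 2 * b ^ 2 + c ^ 3 + Y ^ 5 ≠ X ^ 7 := by
  intro h
  have h1 := cast_eq (res_mod hbM hcM 71 1 2 10 rfl rfl rfl rfl) h
  exact (loc71 _ _).2 h1

end

end PerfectPowerDiff
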