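import Pool.Agent.Lib.MP_cb2e5b_nt.Moment

/-!
Many good integers.
-/

set_option autoImplicit false

open Finset

namespace PerfectPowerDiff

/-- the cubes' bases -/
def CC (i : ℕ) : Finset ℕ := (range (2 ^ (10 * i))).filter (fun c => c % 74957256 = 22536396)

/-- the primes -/
def BB (i : ℕ) : Finset ℕ := PB 74957256 71733289 i

theorem mem_CC {i c : ℕ} (h : c ∈ CC i) : c < 2 ^ (10 * i) ∧ c % 74957256 = 22536396 := by
  unfold CC at h
  rw [mem_filter, mem_range] at h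
  exact h

theorem mem_BB {i b : ℕ} (h : b ∈ BB i) : b < 2 ^ (15 * (i + 1)) ∧ b.Prime ∧
    b % 74957256 = 71733289 := by
  unfold BB PB at h
  rw [mem_filter, mem_Ico] at h
  refine ⟨h.1.2, h.2.1, ?_⟩
  have := h.2.2
  norm_num at this
  exact this

theorem card_CC_le (i : ℕ) : (CC i).card ≤ 2 ^ (10 * i) := by
  unfold CC
  refine (card_filter_le _ _).trans ?_
  rw [card_range]

theorem card_BB_le (i : ℕ) : (BB i).card ≤ 2 ^ 15 * 2 ^ (15 * i) := by
  unfold BB PB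
  refine (card_filter_le _ _).trans ?_
  rw [Nat.card_Ico]
  have : 2 ^ (15 * (i + 1)) = 2 ^ 15 * 2 ^ (15 * i) := by rw [← pow_add]; congr 1; ring
  rw [this]
  exact Nat.sub_le _ _

theorem card_CC_ge (i : ℕ) (hi : 3 ≤ i) : 2 ^ (10 * i) ≤ 2 * 74957256 * (CC i).card := by
  have h1 : 2 ^ (10 * i) / 74957256 ≤ (CC i).card := by
    rw [← card_range (2 ^ (10 * i) / 74957256)]
    apply card_le_card_of_injOn (fun j => 74957256 * j + 22536396)
    · intro j hj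
      rw [mem_coe, mem_range] at hj
      rw [mem_coe]
      unfold CC
      rw [mem_filter, mem_range]
      have h2 := Nat.div_mul_le_self (2 ^ (10 * i)) 74957256
      generalize 2 ^ (10 * i) / 74957256 = t at *
      show 74957256 * j + 22536396 < _ ∧ (74957256 * j + 22536396) % 74957256 = 22536396
      constructor
      · omega
      · omega
    · intro a _ b _ hab
      simp only at hab
      omega
  have h2 : 2 ^ 30 ≤ 2 ^ (10 * i) := Nat.pow_le_pow_right two_pos (by omega)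
  have h3 := Nat.div_add_mod (2 ^ (10 * i)) 74957256
  have h4 := Nat.mod_lt (2 ^ (10 * i)) (show 0 < 74957256 by norm_num)
  have h5 : 1 ≤ 2 ^ (10 * i) / 74957256 := by
    rw [Nat.one_le_div_iff (by norm_num)]
    refine le_trans ?_ h2
    norm_num
  generalize 2 ^ (10 * i) / 74957256 = t at *
  omega

theorem qf_le {i : ℕ} {u : ℕ × ℕ} (hu : u ∈ BB i ×ˢ CC i) : qf u ≤ 2 ^ 32 * (2 ^ i) ^ 30 := by
  rw [mem_product] at hu
  have h1 := (mem_BB hu.1).1.le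
  have h2 := (mem_CC hu.2).1.le
  unfold qf
  calc 2 * u.1 ^ 2 + u.2 ^ 3 ≤ 2 * (2 ^ (15 * (i + 1))) ^ 2 + (2 ^ (10 * i)) ^ 3 :=
        Nat.add_le_add (Nat.mul_le_mul_left _ (Nat.pow_le_pow_left h1 2)) (Nat.pow_le_pow_left h2 3)
    _ = (2 ^ 31 + 1) * (2 ^ i) ^ 30 := by ring
    _ ≤ 2 ^ 32 * (2 ^ i) ^ 30 := Nat.mul_le_mul_right _ (by norm_num)

theorem qf_pos {i : ℕ} {u : ℕ × ℕ} (hu : u ∈ BB i ×ˢ CC i) : 0 < qf u := by
  rw [mem_product] at hu
  have h1 := (mem_BB hu.1).2.1.pos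
  unfold qf
  positivity

/-- a bad value lies in the bad set -/
theorem bad_mem {i : ℕ} {u : ℕ × ℕ} (hu : u ∈ BB i ×ˢ CC i) (hbad : ¬ Good (qf u)) :
    qf u ∈ BadSet (2 ^ i) (129 + 120 * i) := by
  have hle := qf_le hu
  have hpos := qf_pos hu
  rw [mem_product] at hu
  obtain ⟨-, hb, hbM⟩ := mem_BB hu.1
  obtain ⟨-, hcM⟩ := mem_CC hu.2
  obtain ⟨x, y, k, l, hx, hy, hk, hl, h, hlow, h5⟩ := bad_rep hb hbM hcM (n := qf u) rfl hbad
  refine mem_BadSet ?_ (by omega) hpos hle hx hy hk hl h hlow h5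
  have : (2 ^ 32 * (2 ^ i) ^ 30) ^ 4 = 2 ^ (128 + 120 * i) := by
    rw [← pow_mul, ← pow_add, ← pow_mul]
    congr 1
    ring
  rw [this]
  exact Nat.pow_lt_pow_right (by norm_num) (by omega)

/-- the energy -/
theorem energy_bound : ∃ K : ℕ, 0 < K ∧ ∀ i : ℕ,
    (((BB i ×ˢ CC i) ×ˢ (BB i ×ˢ CC i)).filter (fun p => qf p.1 = qf p.2)).card ≤
      (BB i ×ˢ CC i).card + K * (2 ^ i) ^ 23 := by
  obtain ⟨C1, hC1, hdiv⟩ := card_divisors_le_rpow (η := 1 / 10) (by norm_num)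
  obtain ⟨K1, hK1⟩ := exists_nat_ge C1
  refine ⟨K1 + 1, by positivity, fun i => ?_⟩
  have hR : ∀ c ∈ CC i, ∀ c' ∈ CC i, c ≠ c' →
      ((c' ^ 3 - c ^ 3) + (c ^ 3 - c' ^ 3)).divisors.card ≤ K1 * (2 ^ i) ^ 3 := by
    intro c hc c' hc' hcc
    have h1 : c ^ 3 ≠ c' ^ 3 := fun h => hcc (Nat.pow_left_injective (by norm_num) h)
    have h2 : (c' ^ 3 - c ^ 3) + (c ^ 3 - c' ^ 3) ≠ 0 := by omega
    have h3 : (c' ^ 3 - c ^ 3) + (c ^ 3 - c' ^ 3) ≤ 2 ^ (30 * i) := by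
      have h4 : c ^ 3 ≤ (2 ^ (10 * i)) ^ 3 := Nat.pow_le_pow_left (mem_CC hc).1.le 3
      have h5 : c' ^ 3 ≤ (2 ^ (10 * i)) ^ 3 := Nat.pow_le_pow_left (mem_CC hc').1.le 3
      have h6 : (2 ^ (10 * i)) ^ 3 = 2 ^ (30 * i) := by rw [← pow_mul]; congr 1; ring
      rw [h6] at h4 h5
      omega
    have h4 := hdiv _ h2
    have h5 : ((((c' ^ 3 - c ^ 3) + (c ^ 3 - c' ^ 3) : ℕ)) : ℝ) ^ (1 / 10 : ℝ) ≤ (2 ^ i) ^ 3 := by
      calc ((((c' ^ 3 - c ^ 3) + (c ^ 3 - c' ^ 3) : ℕ)) : ℝ) ^ (1 / 10 : ℝ)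
          ≤ (((2 ^ (30 * i) : ℕ)) : ℝ) ^ (1 / 10 : ℝ) :=
            Real.rpow_le_rpow (Nat.cast_nonneg _) (by exact_mod_cast h3) (by norm_num)
        _ = (2 ^ i) ^ 3 := by
            push_cast
            rw [← Real.rpow_natCast 2 (30 * i), ← Real.rpow_mul (by norm_num), ← pow_mul,
              ← Real.rpow_natCast 2 (i * 3)]
            congr 1
            push_cast
            ring
    have h6 : (((((c' ^ 3 - c ^ 3) + (c ^ 3 - c' ^ 3)).divisors.card : ℕ)) : ℝ) ≤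
        ((K1 * (2 ^ i) ^ 3 : ℕ) : ℝ) := by
      refine h4.trans ?_
      rw [Nat.cast_mul, Nat.cast_pow, Nat.cast_pow, Nat.cast_ofNat]
      exact mul_le_mul hK1 h5 (by positivity) (Nat.cast_nonneg _)
    exact_mod_cast h6
  refine (energy_le (BB i) (CC i) (fun b hb => (mem_BB hb).2.1.pos) _ hR).trans ?_
  rw [card_product]
  have hC := card_CC_le i
  apply Nat.add_le_add_left
  calc (CC i).card ^ 2 * (K1 * (2 ^ i) ^ 3)
      ≤ (2 ^ (10 * i)) ^ 2 * (K1 * (2 ^ i) ^ 3) :=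
        Nat.mul_le_mul_right _ (Nat.pow_le_pow_left hC 2)
    _ = K1 * (2 ^ i) ^ 23 := by ring
    _ ≤ (K1 + 1) * (2 ^ i) ^ 23 := Nat.mul_le_mul_right _ (Nat.le_succ _)

/-- lower bound for the number of good integers in terms of the number of primes -/
theorem good_count {K A i : ℕ} (hi : 3 ≤ i)
    (hE : (((BB i ×ˢ CC i) ×ˢ (BB i ×ˢ CC i)).filter (fun p => qf p.1 = qf p.2)).card ≤
      (BB i ×ˢ CC i).card + K * (2 ^ i) ^ 23)
    (hB : 2 ^ (15 * i) ≤ A * (i + 1) * (BB i).card)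
    (hbig1 : 2 * 74957256 * A * K * (i + 1) ≤ 2 ^ i)
    (hbig : 8 * 129 ^ 2 * 2 ^ 63 * (74957256 * A) * (i + 1) ^ 3 ≤ 2 ^ i) :
    ∃ G : Finset ℕ, (∀ n ∈ G, 0 < n ∧ n ≤ 2 ^ 32 * (2 ^ i) ^ 30 ∧ Good n) ∧
      (2 ^ i) ^ 25 ≤ 16 * 74957256 * A * (i + 1) * G.card := by
  classical
  set F := BB i ×ˢ CC i with hF
  set S := F.filter (fun u => qf u ∉ BadSet (2 ^ i) (129 + 120 * i)) with hS
  set T := F.filter (fun u => qf u ∈ BadSet (2 ^ i) (129 + 120 * i)) with hT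
  have hST : F.card = T.card + S.card := (card_filter_add_card_filter_not _).symm
  have hC := card_CC_ge i hi
  have hFc : (2 ^ i) ^ 25 ≤ 2 * 74957256 * A * (i + 1) * F.card := by
    rw [hF, card_product]
    calc (2 ^ i) ^ 25 = 2 ^ (15 * i) * 2 ^ (10 * i) := by ring
      _ ≤ (A * (i + 1) * (BB i).card) * (2 * 74957256 * (CC i).card) := Nat.mul_le_mul hB hC
      _ = _ := by ring
  have hA0 : 0 < 2 * 74957256 * A * (i + 1) := by
    rcases Nat.eq_zero_or_pos (2 * 74957256 * A * (i + 1)) with h | h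
    · rw [h, zero_mul] at hFc
      have : 0 < (2 ^ i) ^ 25 := by positivity
      omega
    · exact h
  have hKf : K * (2 ^ i) ^ 23 ≤ F.card := by
    have h1 : (2 * 74957256 * A * (i + 1)) * (K * (2 ^ i) ^ 23) ≤
        (2 * 74957256 * A * (i + 1)) * F.card := by
      calc (2 * 74957256 * A * (i + 1)) * (K * (2 ^ i) ^ 23)
          = (2 * 74957256 * A * K * (i + 1)) * (2 ^ i) ^ 23 := by ring
        _ ≤ 2 ^ i * (2 ^ i) ^ 23 := Nat.mul_le_mul_right _ hbig1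
        _ = (2 ^ i) ^ 24 := by ring
        _ ≤ (2 ^ i) ^ 25 := Nat.pow_le_pow_right (by positivity) (by norm_num)
        _ ≤ _ := hFc
    exact Nat.le_of_mul_le_mul_left h1 hA0
  have hmono : ∀ U : Finset (ℕ × ℕ), U ⊆ F →
      ((U ×ˢ U).filter (fun p => qf p.1 = qf p.2)).card ≤ 2 * F.card := by
    intro U hU
    refine le_trans (card_le_card (filter_subset_filter _ (product_subset_product hU hU))) ?_
    omega
  refine ⟨S.image qf, ?_, ?_⟩
  · intro n hn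
    obtain ⟨u, hu, rfl⟩ := mem_image.1 hn
    rw [hS, mem_filter] at hu
    refine ⟨qf_pos hu.1, qf_le hu.1, ?_⟩
    by_contra hbad
    exact hu.2 (bad_mem hu.1 hbad)
  · have h2i : 8 ≤ 2 ^ i := by
      calc 8 = 2 ^ 3 := by norm_num
        _ ≤ 2 ^ i := Nat.pow_le_pow_right two_pos hi
    have hT2 : T.card ^ 2 ≤ (129 * (i + 1)) ^ 2 * (2 ^ 62 * (2 ^ i) ^ 24) * (2 * F.card) := by
      refine (cs_image T qf).trans (Nat.mul_le_mul ?_ (hmono T (filter_subset _ _)))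
      have h1 : T.image qf ⊆ BadSet (2 ^ i) (129 + 120 * i) := by
        intro n hn
        obtain ⟨u, hu, rfl⟩ := mem_image.1 hn
        exact (mem_filter.1 hu).2
      refine (card_le_card h1).trans ((card_BadSet h2i).trans ?_)
      exact Nat.mul_le_mul_right _ (Nat.pow_le_pow_left (by omega) 2)
    have hS2 : S.card ^ 2 ≤ (S.image qf).card * (2 * F.card) :=
      (cs_image S qf).trans (Nat.mul_le_mul_left _ (hmono S (filter_subset _ _)))
    set D := 2 ^ i with hD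
    have hD0 : 0 < D := by positivity
    set f := F.card
    set t := T.card
    set s := S.card
    have hf0 : 0 < f := by
      rcases Nat.eq_zero_or_pos f with h | h
      · rw [h, mul_zero] at hFc
        have : 0 < D ^ 25 := by positivity
        omega
      · exact h
    have hbf : 8 * 129 ^ 2 * 2 ^ 62 * (i + 1) ^ 2 * D ^ 24 ≤ f := by
      have h1 : (2 * 74957256 * A * (i + 1)) * (8 * 129 ^ 2 * 2 ^ 62 * (i + 1) ^ 2 * D ^ 24) ≤
          (2 * 74957256 * A * (i + 1)) * f := by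
        calc (2 * 74957256 * A * (i + 1)) * (8 * 129 ^ 2 * 2 ^ 62 * (i + 1) ^ 2 * D ^ 24)
            = (8 * 129 ^ 2 * 2 ^ 63 * (74957256 * A) * (i + 1) ^ 3) * D ^ 24 := by ring
          _ ≤ D * D ^ 24 := Nat.mul_le_mul_right _ hbig
          _ = D ^ 25 := by ring
          _ ≤ _ := hFc
      exact Nat.le_of_mul_le_mul_left h1 hA0
    have hft : (2 * t) ^ 2 ≤ f ^ 2 := by
      calc (2 * t) ^ 2 = 4 * t ^ 2 := by ring
        _ ≤ 4 * ((129 * (i + 1)) ^ 2 * (2 ^ 62 * D ^ 24) * (2 * f)) := Nat.mul_le_mul_left _ hT2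
        _ = (8 * 129 ^ 2 * 2 ^ 62 * (i + 1) ^ 2 * D ^ 24) * f := by ring
        _ ≤ f * f := Nat.mul_le_mul_right _ hbf
        _ = f ^ 2 := by ring
    have hft' : 2 * t ≤ f := le_of_sq_le hft
    have hfs : f ≤ 2 * s := by omega
    have hfG : f ≤ 8 * (S.image qf).card := by
      have h1 : f * f ≤ f * (8 * (S.image qf).card) := by
        calc f * f ≤ (2 * s) * (2 * s) := Nat.mul_le_mul hfs hfs
          _ = 4 * s ^ 2 := by ring
          _ ≤ 4 * ((S.image qf).card * (2 * f)) := Nat.mul_le_mul_left _ hS2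
          _ = _ := by ring
      exact Nat.le_of_mul_le_mul_left h1 hf0
    calc D ^ 25 ≤ 2 * 74957256 * A * (i + 1) * f := hFc
      _ ≤ 2 * 74957256 * A * (i + 1) * (8 * (S.image qf).card) := Nat.mul_le_mul_left _ hfG
      _ = _ := by ring

theorem eventually_pow (K : ℝ) (k : ℕ) {r : ℝ} (hr : 1 < r) :
    ∃ i0 : ℕ, ∀ i : ℕ, i0 ≤ i → K * ((i : ℝ) + 1) ^ k ≤ r ^ i := by
  have h1 := tendsto_pow_const_div_const_pow_of_one_lt k hr
  have hδ : (0 : ℝ) < 1 / (|K| * r + 1) := by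
    have : 0 ≤ |K| * r := mul_nonneg (abs_nonneg _) (by linarith)
    positivity
  obtain ⟨N, hN⟩ := (h1.eventually (gt_mem_nhds hδ)).exists_forall_of_atTop
  refine ⟨N, fun i hi => ?_⟩
  have h2 := hN (i + 1) (by omega)
  have hrp : (0 : ℝ) < r ^ (i + 1) := by positivity
  rw [div_lt_div_iff₀ hrp (by
    have : 0 ≤ |K| * r := mul_nonneg (abs_nonneg _) (by linarith)
    linarith)] at h2
  push_cast at h2
  have h3 : 0 ≤ ((i : ℝ) + 1) ^ k := by positivity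
  have h4 : K * ((i : ℝ) + 1) ^ k ≤ |K| * ((i : ℝ) + 1) ^ k :=
    mul_le_mul_of_nonneg_right (le_abs_self K) h3
  have h5 : r * (|K| * ((i : ℝ) + 1) ^ k) ≤ r * r ^ i := by
    have : r * r ^ i = r ^ (i + 1) := by ring
    rw [this]
    nlinarith
  have h6 := le_of_mul_le_mul_left h5 (by linarith)
  linarith

/-- the set of the good integers up to `N` -/
def GG (N : ℕ) : Set ℕ := {n : ℕ | 0 < n ∧ n ≤ N ∧ Good n}

theorem GG_finite (N : ℕ) : (GG N).Finite := (Set.finite_Iic N).subset (fun _ hn => hn.2.1)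

theorem i_le_log {i N : ℕ} (h : 2 ^ (32 + 30 * i) ≤ N) : (i : ℝ) + 1 ≤ 2 * Real.log N := by
  have h1 : 2 ^ (i + 1) ≤ N := le_trans (Nat.pow_le_pow_right two_pos (by omega)) h
  have e1 : (2 : ℝ) ^ (i + 1) ≤ N := by exact_mod_cast h1
  have e2 := Real.log_le_log (by positivity) e1
  rw [Real.log_pow] at e2
  push_cast at e2
  have e3 : (1 / 2 : ℝ) ≤ Real.log 2 := by
    have := Real.log_two_gt_d9
    linarith
  have e4 : (0 : ℝ) ≤ (i : ℝ) + 1 := by positivity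
  have e5 : ((i : ℝ) + 1) * (1 / 2) ≤ ((i : ℝ) + 1) * Real.log 2 := mul_le_mul_of_nonneg_left e3 e4
  linarith

theorem n_le_d {i N : ℕ} (h : N < 2 ^ (32 + 30 * (i + 1))) :
    (N : ℝ) ^ (5 / 6 : ℝ) ≤ 2 ^ 52 * ((2 : ℝ) ^ i) ^ 25 := by
  have e1 : (N : ℝ) ≤ (2 : ℝ) ^ ((32 + 30 * (i + 1) : ℕ) : ℝ) := by
    rw [Real.rpow_natCast]
    exact_mod_cast h.le
  calc (N : ℝ) ^ (5 / 6 : ℝ) ≤ ((2 : ℝ) ^ ((32 + 30 * (i + 1) : ℕ) : ℝ)) ^ (5 / 6 : ℝ) :=
        Real.rpow_le_rpow (Nat.cast_nonneg _) e1 (by norm_num)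
    _ ≤ (2 : ℝ) ^ ((52 + 25 * i : ℕ) : ℝ) := by
        rw [← Real.rpow_mul (by norm_num)]
        apply Real.rpow_le_rpow_of_exponent_le (by norm_num)
        push_cast
        linarith
    _ = 2 ^ 52 * ((2 : ℝ) ^ i) ^ 25 := by
        rw [Real.rpow_natCast, pow_add, pow_mul' 2 25 i]

theorem final_calc {x L g a n d : ℝ} (hx : 0 < x) (hL : x ≤ 2 * L) (ha : 0 < a) (hg : 0 ≤ g)
    (h3 : d ≤ a * x * g) (h4 : n ≤ 2 ^ 52 * d) : 1 / (2 ^ 52 * a * 2) * (n / L) ≤ g := by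
  have hL0 : 0 < L := by linarith
  rw [one_div, ← div_eq_inv_mul, div_div, div_le_iff₀ (by positivity)]
  calc n ≤ 2 ^ 52 * d := h4
    _ ≤ 2 ^ 52 * (a * x * g) := mul_le_mul_of_nonneg_left h3 (by norm_num)
    _ ≤ 2 ^ 52 * (a * (2 * L) * g) := by
        apply mul_le_mul_of_nonneg_left _ (by norm_num)
        apply mul_le_mul_of_nonneg_right _ hg
        exact mul_le_mul_of_nonneg_left hL ha.le
    _ = _ := by ring

/-- there are many good integers -/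
theorem many_good : ∃ c : ℝ, 0 < c ∧ ∃ N₀ : ℕ, ∀ N : ℕ, N₀ ≤ N →
    c * ((N : ℝ) ^ (5 / 6 : ℝ) / Real.log N) ≤ ((GG N).ncard : ℝ) := by
  obtain ⟨K, hK, hE⟩ := energy_bound
  obtain ⟨i0, hprimes⟩ := primes_all 74957256 71733289 (by norm_num) (by norm_num)
  set A : ℕ := 15 * 74957256 with hA
  obtain ⟨i1, hi1⟩ := eventually_pow ((2 * 74957256 * A * K : ℕ) : ℝ) 1 (r := 2) (by norm_num)
  obtain ⟨i2, hi2⟩ := eventually_pow
    ((8 * 129 ^ 2 * 2 ^ 63 * (74957256 * A) : ℕ) : ℝ) 3 (r := 2) (by norm_num)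
  have hApos : (0 : ℝ) < 16 * 74957256 * (A : ℝ) := by
    rw [hA]
    norm_num
  clear_value A
  refine ⟨1 / (2 ^ 52 * (16 * 74957256 * (A : ℝ)) * 2), by positivity,
    2 ^ (32 + 30 * (3 + i0 + i1 + i2)), fun N hN => ?_⟩
  -- the block
  obtain ⟨i, hi3, hiN, hNi⟩ : ∃ i : ℕ, 3 + i0 + i1 + i2 ≤ i ∧ 2 ^ (32 + 30 * i) ≤ N ∧
      N < 2 ^ (32 + 30 * (i + 1)) := by
    have hN0 : N ≠ 0 := by
      have : 0 < 2 ^ (32 + 30 * (3 + i0 + i1 + i2)) := by positivity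
      omega
    have h1 := Nat.pow_log_le_self 2 hN0
    have h2 := Nat.lt_pow_succ_log_self (b := 2) (by norm_num) N
    have h3 : 32 + 30 * (3 + i0 + i1 + i2) ≤ Nat.log 2 N :=
      Nat.le_log_of_pow_le (by norm_num) hN
    refine ⟨(Nat.log 2 N - 32) / 30, by omega, ?_, ?_⟩
    · refine le_trans (Nat.pow_le_pow_right two_pos ?_) h1
      omega
    · refine lt_of_lt_of_le h2 (Nat.pow_le_pow_right two_pos ?_)
      omega
  have hbig1 : 2 * 74957256 * A * K * (i + 1) ≤ 2 ^ i := by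
    have := hi1 i (by omega)
    rw [pow_one] at this
    exact_mod_cast this
  have hbig : 8 * 129 ^ 2 * 2 ^ 63 * (74957256 * A) * (i + 1) ^ 3 ≤ 2 ^ i := by
    have := hi2 i (by omega)
    exact_mod_cast this
  obtain ⟨G, hG, hGc⟩ := good_count (K := K) (A := A) (i := i) (by omega) (hE i)
    (hprimes i (by omega)) hbig1 hbig
  have h1 : (G.card : ℝ) ≤ ((GG N).ncard : ℝ) := by
    have h2 := Set.ncard_le_ncard (s := (G : Set ℕ)) (t := GG N) (fun n hn => by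
      obtain ⟨g1, g2, g3⟩ := hG n hn
      refine ⟨g1, le_trans g2 (le_trans (le_of_eq ?_) hiN), g3⟩
      rw [← pow_mul, ← pow_add]
      congr 1
      ring) (GG_finite N)
    rw [Set.ncard_coe_finset] at h2
    exact_mod_cast h2
  refine le_trans ?_ h1
  have h3 : ((2 : ℝ) ^ i) ^ 25 ≤ (16 * 74957256 * (A : ℝ)) * ((i : ℝ) + 1) * G.card := by
    exact_mod_cast hGc
  have h5 : (i : ℝ) + 1 ≤ 2 * Real.log N := i_le_log hiN
  exact final_calc (Nat.cast_add_one_pos i) h5 hApos (Nat.cast_nonneg _) h3 (n_le_d hNi)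

end PerfectPowerDiff
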