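import Pool.Agent.Lib.MP_cb2e5b_nt.DivB

/-!
Second moment of the number of representations by `2 b ^ 2 + c ^ 3`.
-/

set_option autoImplicit false

open Finset

namespace PerfectPowerDiff

/-- Cauchy-Schwarz for the size of an image -/
theorem cs_image {α β : Type*} [DecidableEq α] [DecidableEq β] (S : Finset α) (φ : α → β) :
    S.card ^ 2 ≤ (S.image φ).card * ((S ×ˢ S).filter (fun p => φ p.1 = φ p.2)).card := by
  have h1 : S.card = ∑ n ∈ S.image φ, (S.filter (fun u => φ u = n)).card :=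
    card_eq_sum_card_image φ S
  have h2 : ((S ×ˢ S).filter (fun p => φ p.1 = φ p.2)).card =
      ∑ n ∈ S.image φ, (S.filter (fun u => φ u = n)).card ^ 2 := by
    rw [card_eq_sum_card_fiberwise (f := fun p : α × α => φ p.1) (t := S.image φ)]
    · refine sum_congr rfl fun n _ => ?_
      rw [sq, ← card_product]
      congr 1
      ext ⟨u, v⟩
      simp only [mem_filter, mem_product]
      constructor
      · rintro ⟨⟨⟨h3, h4⟩, h5⟩, h6⟩
        exact ⟨⟨h3, h6⟩, h4, by rw [← h5]; exact h6⟩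
      · rintro ⟨⟨h3, h6⟩, h4, h5⟩
        exact ⟨⟨⟨h3, h4⟩, by rw [h5, h6]⟩, h6⟩
    · rintro ⟨u, v⟩ hp
      rw [mem_coe, mem_filter, mem_product] at hp
      exact mem_coe.2 (mem_image_of_mem φ hp.1.1)
  rw [h2, h1]
  exact sq_sum_le_card_mul_sum_sq

/-- the form -/
def qf (u : ℕ × ℕ) : ℕ := 2 * u.1 ^ 2 + u.2 ^ 3

/-- pairs `(b, b')` for given `c ≠ c'` -/
theorem card_fiber_le (B : Finset ℕ) (hB : ∀ b ∈ B, 0 < b) {c c' : ℕ} (hcc : c ≠ c') :
    ((B ×ˢ B).filter (fun p => 2 * p.1 ^ 2 + c ^ 3 = 2 * p.2 ^ 2 + c' ^ 3)).card ≤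
      ((c' ^ 3 - c ^ 3) + (c ^ 3 - c' ^ 3)).divisors.card := by
  have hm : (c' ^ 3 - c ^ 3) + (c ^ 3 - c' ^ 3) ≠ 0 := by
    have h1 : c ^ 3 ≠ c' ^ 3 := fun h => hcc (Nat.pow_left_injective (by norm_num) h)
    omega
  apply card_le_card_of_injOn (fun p : ℕ × ℕ => p.1 + p.2)
  · rintro ⟨b, b'⟩ hp
    rw [mem_coe, mem_filter, mem_product] at hp
    obtain ⟨⟨hb, hb'⟩, h⟩ := hp
    simp only at h hb hb'
    rw [mem_coe, Nat.mem_divisors]
    refine ⟨?_, hm⟩
    show b + b' ∣ _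
    rcases le_total b' b with hle | hle
    · obtain ⟨d, rfl⟩ := Nat.exists_eq_add_of_le hle
      have h1 : c' ^ 3 = c ^ 3 + (b' + d + b') * (2 * d) := by nlinarith
      refine ⟨2 * d, ?_⟩
      rw [h1]
      omega
    · obtain ⟨d, rfl⟩ := Nat.exists_eq_add_of_le hle
      have h1 : c ^ 3 = c' ^ 3 + (b + (b + d)) * (2 * d) := by nlinarith
      refine ⟨2 * d, ?_⟩
      rw [h1]
      omega
  · rintro ⟨b1, b1'⟩ hp ⟨b2, b2'⟩ hq hs
    rw [mem_coe, mem_filter, mem_product] at hp hq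
    obtain ⟨⟨hb1, hb1'⟩, h1⟩ := hp
    obtain ⟨⟨hb2, hb2'⟩, h2⟩ := hq
    simp only at h1 h2 hs hb1
    have hpos := hB b1 hb1
    have e1 : 2 * (b1 : ℤ) ^ 2 + (c : ℤ) ^ 3 = 2 * (b1' : ℤ) ^ 2 + (c' : ℤ) ^ 3 := by exact_mod_cast h1
    have e2 : 2 * (b2 : ℤ) ^ 2 + (c : ℤ) ^ 3 = 2 * (b2' : ℤ) ^ 2 + (c' : ℤ) ^ 3 := by exact_mod_cast h2
    have e3 : (b1 : ℤ) + b1' = b2 + b2' := by exact_mod_cast hs
    have e4 : ((b1 : ℤ) + b1') * ((b1 : ℤ) - b1') = ((b1 : ℤ) + b1') * ((b2 : ℤ) - b2') := by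
      have : 2 * (((b1 : ℤ) + b1') * ((b1 : ℤ) - b1')) = 2 * (((b2 : ℤ) + b2') * ((b2 : ℤ) - b2')) := by
        linear_combination e1 - e2
      rw [e3] at this ⊢
      linarith
    have e5 : (b1 : ℤ) + b1' ≠ 0 := by positivity
    have e6 := mul_left_cancel₀ e5 e4
    rw [Prod.mk.injEq]
    constructor <;> omega

/-- number of coincidences -/
theorem energy_le (B C : Finset ℕ) (hB : ∀ b ∈ B, 0 < b) (R : ℕ)
    (hR : ∀ c ∈ C, ∀ c' ∈ C, c ≠ c' → ((c' ^ 3 - c ^ 3) + (c ^ 3 - c' ^ 3)).divisors.card ≤ R) :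
    (((B ×ˢ C) ×ˢ (B ×ˢ C)).filter (fun p => qf p.1 = qf p.2)).card ≤
      B.card * C.card + C.card ^ 2 * R := by
  set E := ((B ×ˢ C) ×ˢ (B ×ˢ C)).filter (fun p => qf p.1 = qf p.2) with hE
  have hsplit : E.card = (E.filter (fun p => p.1.2 = p.2.2)).card +
      (E.filter (fun p => ¬ p.1.2 = p.2.2)).card := (card_filter_add_card_filter_not _).symm
  have h1 : (E.filter (fun p => p.1.2 = p.2.2)).card ≤ B.card * C.card := by
    rw [← card_product]
    apply card_le_card_of_injOn (fun p : (ℕ × ℕ) × (ℕ × ℕ) => p.1)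
    · intro p hp
      rw [mem_coe, mem_filter, hE, mem_filter, mem_product] at hp
      exact mem_coe.2 hp.1.1.1
    · rintro ⟨⟨b1, c1⟩, b1', c1'⟩ hp ⟨⟨b2, c2⟩, b2', c2'⟩ hq hs
      rw [mem_coe, mem_filter, hE, mem_filter, mem_product] at hp hq
      obtain ⟨⟨-, h3⟩, h4⟩ := hp
      obtain ⟨⟨-, h5⟩, h6⟩ := hq
      simp only [qf, Prod.mk.injEq] at h3 h4 h5 h6 hs ⊢
      obtain ⟨rfl, rfl⟩ := hs
      subst h4 h6
      have h7 : b1' ^ 2 = b2' ^ 2 := by omega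
      exact ⟨⟨rfl, rfl⟩, Nat.pow_left_injective (by norm_num) h7, rfl⟩
  have h2 : (E.filter (fun p => ¬ p.1.2 = p.2.2)).card ≤ C.card ^ 2 * R := by
    have hmaps : ∀ p ∈ E.filter (fun p => ¬ p.1.2 = p.2.2), (p.1.2, p.2.2) ∈ C ×ˢ C := by
      intro p hp
      rw [mem_filter, hE, mem_filter, mem_product, mem_product, mem_product] at hp
      rw [mem_product]
      exact ⟨hp.1.1.1.2, hp.1.1.2.2⟩
    refine (card_le_mul_card_image_of_maps_to hmaps R ?_).trans ?_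
    · rintro ⟨c, c'⟩ hc
      rw [mem_product] at hc
      by_cases hcc : c = c'
      · rw [card_eq_zero.2]
        · exact Nat.zero_le _
        · rw [filter_eq_empty_iff]
          intro p hp h3
          rw [mem_filter] at hp
          rw [Prod.mk.injEq] at h3
          exact hp.2 (by rw [h3.1, h3.2, hcc])
      · refine le_trans ?_ (hR c hc.1 c' hc.2 hcc)
        refine le_trans ?_ (card_fiber_le B hB hcc)
        apply card_le_card_of_injOn (fun p : (ℕ × ℕ) × (ℕ × ℕ) => (p.1.1, p.2.1))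
        · intro p hp
          rw [mem_coe, mem_filter, mem_filter, hE, mem_filter, mem_product, mem_product,
            mem_product] at hp
          obtain ⟨⟨⟨⟨h3, h4⟩, h5⟩, -⟩, h6⟩ := hp
          rw [Prod.mk.injEq] at h6
          rw [mem_coe, mem_filter, mem_product]
          refine ⟨⟨h3.1, h4.1⟩, ?_⟩
          unfold qf at h5
          rw [h6.1, h6.2] at h5
          exact h5
        · rintro ⟨⟨b1, c1⟩, b1', c1'⟩ hp ⟨⟨b2, c2⟩, b2', c2'⟩ hq hs
          rw [mem_coe, mem_filter] at hp hq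
          have h3 := hp.2
          have h4 := hq.2
          simp only [Prod.mk.injEq] at h3 h4 hs ⊢
          refine ⟨⟨hs.1, ?_⟩, hs.2, ?_⟩
          · rw [h3.1, h4.1]
          · rw [h3.2, h4.2]
    · rw [card_product, mul_comm, sq]
  omega

end PerfectPowerDiff
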