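import Mathlib

/-!
Two Mordell equations at once: if `b` is a prime congruent to 1 modulo 8 and `c` is congruent to 4 modulo 8,
then `2 b^2 + c^3` is neither `x^2 - y^3` nor `y^3 - x^2`.
-/

set_option autoImplicit false

namespace PerfectPowerDiff

/-- a natural number all of whose prime factors lie in a multiplicative set `S` of residues modulo 8 -/
theorem residue_of_primeFactors (S : Set (ZMod 8)) (h1 : (1 : ZMod 8) ∈ S)
    (hmul : ∀ a ∈ S, ∀ b ∈ S, a * b ∈ S) (Q : ℕ) (hQ : Q ≠ 0)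
    (h : ∀ p : ℕ, p.Prime → p ∣ Q → (p : ZMod 8) ∈ S) : (Q : ZMod 8) ∈ S := by
  induction Q using Nat.recOnMul with
  | zero => exact absurd rfl hQ
  | one => simpa using h1
  | prime p hp => exact h p hp dvd_rfl
  | mul a b iha ihb =>
    have ha : a ≠ 0 := fun h0 => hQ (by simp [h0])
    have hb : b ≠ 0 := fun h0 => hQ (by simp [h0])
    rw [Nat.cast_mul]
    exact hmul _ (iha ha fun p hp hd => h p hp (hd.mul_right b)) _
      (ihb hb fun p hp hd => h p hp (hd.mul_left a))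

theorem natAbs_cast8 (z : ℤ) (hz : 0 ≤ z) : ((z.natAbs : ℕ) : ZMod 8) = (z : ZMod 8) := by
  have h : ((z.natAbs : ℤ) : ZMod 8) = (z : ZMod 8) := by rw [Int.natAbs_of_nonneg hz]
  simpa using h

/-- prime factors of `x^2 - 2 b^2` -/
theorem prime_two {p b : ℕ} (hp : p.Prime) (hb : b.Prime) (hb8 : b % 8 = 1) (hp2 : p ≠ 2) (x : ℤ)
    (h : (p : ℤ) ∣ x ^ 2 - 2 * (b : ℤ) ^ 2) : p % 8 = 1 ∨ p % 8 = 7 := by
  haveI := Fact.mk hp
  by_cases hpb : p = b
  · left; rw [hpb]; exact hb8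
  · rw [← ZMod.exists_sq_eq_two_iff hp2]
    have hb0 : ((b : ℕ) : ZMod p) ≠ 0 := by
      intro h0
      rw [ZMod.natCast_eq_zero_iff] at h0
      exact hpb ((Nat.prime_dvd_prime_iff_eq hp hb).1 h0)
    have h1 : (x : ZMod p) ^ 2 - 2 * (b : ZMod p) ^ 2 = 0 := by
      have := (ZMod.intCast_zmod_eq_zero_iff_dvd (x ^ 2 - 2 * (b : ℤ) ^ 2) p).2 h
      push_cast at this
      exact this
    refine ⟨(x : ZMod p) / (b : ZMod p), ?_⟩
    field_simp
    linear_combination -h1

/-- prime factors of `x^2 + 2 b^2` -/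
theorem prime_neg_two {p b : ℕ} (hp : p.Prime) (hb : b.Prime) (hb8 : b % 8 = 1) (hp2 : p ≠ 2) (x : ℤ)
    (h : (p : ℤ) ∣ x ^ 2 + 2 * (b : ℤ) ^ 2) : p % 8 = 1 ∨ p % 8 = 3 := by
  haveI := Fact.mk hp
  by_cases hpb : p = b
  · left; rw [hpb]; exact hb8
  · rw [← ZMod.exists_sq_eq_neg_two_iff hp2]
    have hb0 : ((b : ℕ) : ZMod p) ≠ 0 := by
      intro h0
      rw [ZMod.natCast_eq_zero_iff] at h0
      exact hpb ((Nat.prime_dvd_prime_iff_eq hp hb).1 h0)
    have h1 : (x : ZMod p) ^ 2 + 2 * (b : ZMod p) ^ 2 = 0 := by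
      have := (ZMod.intCast_zmod_eq_zero_iff_dvd (x ^ 2 + 2 * (b : ℤ) ^ 2) p).2 h
      push_cast at this
      exact this
    refine ⟨(x : ZMod p) / (b : ZMod p), ?_⟩
    field_simp
    linear_combination -h1

theorem cast8_of_mod {n r : ℕ} (h : n % 8 = r) : ((n : ℕ) : ZMod 8) = (r : ZMod 8) := by
  rw [← h]
  simp

theorem mod_of_cast8 {n r : ℕ} (hr : r < 8) (h : ((n : ℕ) : ZMod 8) = (r : ZMod 8)) : n % 8 = r := by
  have := (ZMod.natCast_eq_natCast_iff' n r 8).1 h
  omega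

theorem mordell_one {b c : ℕ} (hb : b.Prime) (hb8 : b % 8 = 1) (hc : c % 8 = 4) (x y : ℤ) :
    x ^ 2 - y ^ 3 ≠ 2 * (b : ℤ) ^ 2 + (c : ℤ) ^ 3 := by
  intro h
  have hb' : ((b : ℤ) : ZMod 8) = 1 := by
    have := cast8_of_mod hb8
    simpa using this
  have hc' : ((c : ℤ) : ZMod 8) = 4 := by
    have := cast8_of_mod hc
    simpa using this
  have h8 : (x : ZMod 8) ^ 2 - (y : ZMod 8) ^ 3 = 2 := by
    have h1 := congrArg (fun z : ℤ => (z : ZMod 8)) h
    push_cast at h1
    have hb'' : (b : ZMod 8) = 1 := by simpa using hb'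
    have hc'' : (c : ZMod 8) = 4 := by simpa using hc'
    rw [hb'', hc''] at h1
    rw [h1]
    decide
  have hy : (y : ZMod 8) = 7 := by
    have key : ∀ u v : ZMod 8, u ^ 2 - v ^ 3 = 2 → v = 7 := by decide
    exact key _ _ h8
  set Q : ℤ := y ^ 2 - y * c + (c : ℤ) ^ 2 with hQ
  have hfac : x ^ 2 - 2 * (b : ℤ) ^ 2 = (y + c) * Q := by rw [hQ]; linear_combination h
  have hQ8 : (Q : ZMod 8) = 5 := by
    rw [hQ]
    push_cast
    have hc'' : (c : ZMod 8) = 4 := by simpa using hc'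
    rw [hc'', hy]
    decide
  have hQpos : 0 ≤ Q := by rw [hQ]; nlinarith [sq_nonneg (2 * y - (c : ℤ)), sq_nonneg (c : ℤ)]
  have hQ0 : Q ≠ 0 := by
    intro h0
    rw [h0] at hQ8
    revert hQ8
    decide
  have hcast := natAbs_cast8 Q hQpos
  have hmem : ((Q.natAbs : ℕ) : ZMod 8) ∈ ({1, 7} : Set (ZMod 8)) := by
    apply residue_of_primeFactors
    · simp
    · intro a ha b hb
      simp only [Set.mem_insert_iff, Set.mem_singleton_iff] at ha hb ⊢
      revert a b
      decide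
    · exact Int.natAbs_ne_zero.2 hQ0
    · intro p hp hd
      have hd' : (p : ℤ) ∣ Q := Int.natCast_dvd.2 hd
      have hp2 : p ≠ 2 := by
        rintro rfl
        obtain ⟨k, hk⟩ := hd'
        rw [hk] at hQ8
        push_cast at hQ8
        have key : ∀ u : ZMod 8, 2 * u ≠ 5 := by decide
        exact key _ hQ8
      have := prime_two hp hb hb8 hp2 x (by rw [hfac]; exact hd'.mul_left _)
      rcases this with h1 | h1
      · rw [cast8_of_mod h1]; simp
      · rw [cast8_of_mod h1]; simp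
  rw [hcast, hQ8] at hmem
  simp only [Set.mem_insert_iff, Set.mem_singleton_iff] at hmem
  revert hmem
  decide

theorem mordell_two {b c : ℕ} (hb : b.Prime) (hb8 : b % 8 = 1) (hc : c % 8 = 4) (x y : ℤ) :
    y ^ 3 - x ^ 2 ≠ 2 * (b : ℤ) ^ 2 + (c : ℤ) ^ 3 := by
  intro h
  have hb' : (b : ZMod 8) = 1 := by
    have := cast8_of_mod hb8
    simpa using this
  have hc' : (c : ZMod 8) = 4 := by
    have := cast8_of_mod hc
    simpa using this
  have h8 : (y : ZMod 8) ^ 3 - (x : ZMod 8) ^ 2 = 2 := by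
    have h1 := congrArg (fun z : ℤ => (z : ZMod 8)) h
    push_cast at h1
    rw [hb', hc'] at h1
    rw [h1]
    decide
  have hy : (y : ZMod 8) = 3 := by
    have key : ∀ u v : ZMod 8, v ^ 3 - u ^ 2 = 2 → v = 3 := by decide
    exact key _ _ h8
  set Q : ℤ := y ^ 2 + y * c + (c : ℤ) ^ 2 with hQ
  have hfac : x ^ 2 + 2 * (b : ℤ) ^ 2 = (y - c) * Q := by rw [hQ]; linear_combination -h
  have hQ8 : (Q : ZMod 8) = 5 := by
    rw [hQ]
    push_cast
    rw [hc', hy]
    decide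
  have hQpos : 0 ≤ Q := by rw [hQ]; nlinarith [sq_nonneg (2 * y + (c : ℤ)), sq_nonneg (c : ℤ)]
  have hQ0 : Q ≠ 0 := by
    intro h0
    rw [h0] at hQ8
    revert hQ8
    decide
  have hcast := natAbs_cast8 Q hQpos
  have hmem : ((Q.natAbs : ℕ) : ZMod 8) ∈ ({1, 3} : Set (ZMod 8)) := by
    apply residue_of_primeFactors
    · simp
    · intro a ha b hb
      simp only [Set.mem_insert_iff, Set.mem_singleton_iff] at ha hb ⊢
      revert a b
      decide
    · exact Int.natAbs_ne_zero.2 hQ0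
    · intro p hp hd
      have hd' : (p : ℤ) ∣ Q := Int.natCast_dvd.2 hd
      have hp2 : p ≠ 2 := by
        rintro rfl
        obtain ⟨k, hk⟩ := hd'
        rw [hk] at hQ8
        push_cast at hQ8
        have key : ∀ u : ZMod 8, 2 * u ≠ 5 := by decide
        exact key _ hQ8
      have := prime_neg_two hp hb hb8 hp2 x (by rw [hfac]; exact hd'.mul_left _)
      rcases this with h1 | h1
      · rw [cast8_of_mod h1]; simp
      · rw [cast8_of_mod h1]; simp
  rw [hcast, hQ8] at hmem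
  simp only [Set.mem_insert_iff, Set.mem_singleton_iff] at hmem
  revert hmem
  decide

end PerfectPowerDiff
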