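import Pool.Agent.Lib.MP_cb2e5b_nt.Exclude

/-!
Representations `n + y ^ l = x ^ k` of `n = 2 b ^ 2 + c ^ 3` (`b`, `c` in the fixed classes).
-/

set_option autoImplicit false

namespace PerfectPowerDiff

/-- every representation of `n` is high and of a restricted type -/
def Good (n : ℕ) : Prop :=
  ∀ x y k l : ℕ, 0 < x → 0 < y → 2 ≤ k → 2 ≤ l → n + y ^ l = x ^ k →
    n ^ 4 < x ^ k ∧ Nat.Coprime k l ∧
      ∀ p ∈ ({2, 3, 5, 7} : Finset ℕ), ∀ q ∈ ({2, 3, 5, 7} : Finset ℕ), p ∣ k → q ∣ l →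
        (p, q) = (5, 2) ∨ (p, q) = (2, 7) ∨ (p, q) = (7, 2)

theorem pow_dvd_pow_form {x k p : ℕ} (h : p ∣ k) : ∃ X : ℕ, x ^ k = X ^ p := by
  obtain ⟨e, rfl⟩ := h
  exact ⟨x ^ e, by rw [← pow_mul, mul_comm e p]⟩

theorem coprime_of_high {n x y k l : ℕ} (hn : 0 < n) (h : n + y ^ l = x ^ k)
    (hh : n ^ 4 < x ^ k) : Nat.Coprime k l := by
  by_contra hcon
  obtain ⟨p, hp, hpk, hpl⟩ := Nat.Prime.not_coprime_iff_dvd.1 hcon
  obtain ⟨X, hX⟩ := pow_dvd_pow_form (x := x) hpk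
  obtain ⟨Y, hY⟩ := pow_dvd_pow_form (x := y) hpl
  rw [hX, hY] at h
  have h1 := height_same hp.two_le hn h
  rw [hX] at hh
  have h2 : n ^ 2 ≤ n ^ 4 := Nat.pow_le_pow_right hn (by norm_num)
  omega

section

variable {b c : ℕ} (hb : b.Prime) (hbM : b % 74957256 = 71733289) (hcM : c % 74957256 = 22536396)

include hb hbM hcM

theorem types {x y k l n : ℕ} (hn : n = 2 * b ^ 2 + c ^ 3) (h : n + y ^ l = x ^ k)
    {p q : ℕ} (hp : p ∈ ({2, 3, 5, 7} : Finset ℕ)) (hq : q ∈ ({2, 3, 5, 7} : Finset ℕ))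
    (hpk : p ∣ k) (hql : q ∣ l) (hne : p = q → p < 5) :
    (p, q) = (5, 2) ∨ (p, q) = (2, 7) ∨ (p, q) = (7, 2) := by
  obtain ⟨X, hX⟩ := pow_dvd_pow_form (x := x) hpk
  obtain ⟨Y, hY⟩ := pow_dvd_pow_form (x := y) hql
  rw [hX, hY, hn] at h
  simp only [Finset.mem_insert, Finset.mem_singleton] at hp hq
  rcases hp with rfl | rfl | rfl | rfl <;> rcases hq with rfl | rfl | rfl | rfl
  · exact absurd h (no_22 hbM hcM X Y)
  · exact absurd h (no_23 hb hbM hcM X Y)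
  · exact absurd h (no_25 hbM hcM X Y)
  · simp
  · exact absurd h (no_32 hb hbM hcM X Y)
  · exact absurd h (no_33 hbM hcM X Y)
  · exact absurd h (no_35 hbM hcM X Y)
  · exact absurd h (no_37 hbM hcM X Y)
  · simp
  · exact absurd h (no_53 hbM hcM X Y)
  · exact absurd (hne rfl) (by norm_num)
  · exact absurd h (no_57 hbM hcM X Y)
  · simp
  · exact absurd h (no_73 hbM hcM X Y)
  · exact absurd h (no_75 hbM hcM X Y)
  · exact absurd (hne rfl) (by norm_num)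

theorem five_le {x y k l n : ℕ} (hn : n = 2 * b ^ 2 + c ^ 3) (hk : 2 ≤ k) (hl : 2 ≤ l)
    (h : n + y ^ l = x ^ k) : 5 ≤ k ∨ 5 ≤ l := by
  by_contra hcon
  push Not at hcon
  have h1 : 2 ∣ k ∨ 3 ∣ k := by omega
  have h2 : 2 ∣ l ∨ 3 ∣ l := by omega
  obtain ⟨p, hp, hp2, hpk⟩ : ∃ p, p ∈ ({2, 3, 5, 7} : Finset ℕ) ∧ (p = 2 ∨ p = 3) ∧ p ∣ k := by
    rcases h1 with h1 | h1
    · exact ⟨2, by simp, Or.inl rfl, h1⟩
    · exact ⟨3, by simp, Or.inr rfl, h1⟩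
  obtain ⟨q, hq, hq2, hql⟩ : ∃ q, q ∈ ({2, 3, 5, 7} : Finset ℕ) ∧ (q = 2 ∨ q = 3) ∧ q ∣ l := by
    rcases h2 with h2 | h2
    · exact ⟨2, by simp, Or.inl rfl, h2⟩
    · exact ⟨3, by simp, Or.inr rfl, h2⟩
  have := types hb hbM hcM hn h hp hq hpk hql (by omega)
  simp only [Prod.mk.injEq] at this
  omega

/-- if `n` is in the family and is not good then it has a low representation with an exponent
at least five -/
theorem bad_rep {n : ℕ} (hn : n = 2 * b ^ 2 + c ^ 3) (hbad : ¬ Good n) :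
    ∃ x y k l : ℕ, 0 < x ∧ 0 < y ∧ 2 ≤ k ∧ 2 ≤ l ∧ n + y ^ l = x ^ k ∧ x ^ k ≤ n ^ 4 ∧
      (5 ≤ k ∨ 5 ≤ l) := by
  have hn0 : 0 < n := by
    have := hb.pos
    rw [hn]
    positivity
  by_contra hcon
  push Not at hcon
  apply hbad
  intro x y k l hx hy hk hl h
  have hhigh : n ^ 4 < x ^ k := by
    by_contra hlow
    rw [not_lt] at hlow
    have h1 := hcon x y k l hx hy hk hl h hlow
    rcases five_le hb hbM hcM hn hk hl h with h2 | h2
    · omega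
    · omega
  have hco := coprime_of_high hn0 h hhigh
  refine ⟨hhigh, hco, ?_⟩
  intro p hp q hq hpk hql
  refine types hb hbM hcM hn h hp hq hpk hql ?_
  intro hpq
  exfalso
  have h1 : p ∣ Nat.gcd k l := Nat.dvd_gcd hpk (hpq ▸ hql)
  rw [hco] at h1
  have h2 := Nat.dvd_one.1 h1
  rw [h2] at hp
  simp at hp

end

end PerfectPowerDiff
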